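import Pool.Agent.Results.MP_dc1397_gt.LargeSections
import Pool.Agent.V7H40.CH.Ap

/-!
# The hyperplane conjecture of KLS for bodies with symmetric constraints of bounded range

Let the coordinates of `ℝⁿ` be divided into blocks `x_0, x_1, x_2, …` with at most `s` coordinates each
(`b i` is the number of the block of the coordinate `i`). The bodies are

  `K = {x | (x_j, x_{j+1}) ∈ K_j for all j}`

where the `K_j` are arbitrary convex sets in at most `2 s` dimensions which are symmetric under
`(u, v) ↦ (-u, v)` and `(u, v) ↦ (u, -v)` (`ChainBody`; in this definition the constraints are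
expressed by the Markov property: if two points of the body have the same block `j`, then the first
`j` blocks of one and the last blocks of the other form a point of the body). For blocks of size
`s` these are in particular all unconditional bodies which are given by arbitrary constraints, each
on at most `s + 1` consecutive coordinates (`finite_range`): for instance the sets
`|x_i|^p + |x_{i+1}|^p + ⋯ + |x_{i+s}|^p ≤ 1` for all `i`. For `s = 1` the `K_j` are arbitrary
unconditional sets in the plane.

Theorem. For every `s` there is a constant `A` such that the uniform probability measures on all bodies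
of this form, in all dimensions, and all their linear images satisfy the Poincare inequality with the
constant `A` times the largest variance of a marginal (`Poincare`; this is the conjecture of Kannan,
Lovasz and Simonovits in its usual equivalent form). So Q1 holds for all symmetric bodies of the
class `ChainClass`, which contains these bodies and is closed under images under affine maps with
small kernels, under sections of small codimension through the barycentre, large sections of small
codimension, and under the converse operations (`extend`: all convex bodies which have such a body as a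
large section; `lift`). (For general unconditional bodies the constant is known only up to a power of
`log n`; for these bodies the chain of constraints replaces the product structure and the symmetry
under permutations which were used before.)

Method. (1) Minorization: if `x, y, z` are points of `K`, then
`(x_0, …, x_{r-1}, x_r / 2, y_{r+1} / 2, z_{r+2} / 2, z_{r+3}, …)` belongs to `K`. With Brunn-Minkowski it
follows that the joint law of the blocks `≤ r` and the blocks `≥ r + 2` has a density of at least `32^{-s}`
with respect to the product of its marginals: two steps of the inhomogeneous Markov chain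
`x_0, x_1, …` satisfy a Doeblin condition for both directions of time. So functions of the blocks `≤ r` and of the
blocks `≥ r + 2 m` have correlation at most `(1 - 32^{-s})^m` (`two_block`). (2) Bisection: conditional
variances. `(1 - θ^m) Var f ≤ E Var(f | x_j, j ≤ r) + E Var(f | x_j, j ≥ r + 2 m)`; the conditional laws are
uniform on bodies of the same form with about half as many blocks; averaging over `k` disjoint
windows of length `2 m`, `θ^m ≤ 1 / (1 + k)`, costs only a factor `(1 + 1/k)²` for the passage from
chains with `N_j` to chains with `N_{j+1}` blocks, where `k = (j+2)²` and `N_j = 16 · 32^s (j + 10)⁴`. The product of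
these factors is bounded. (3) Bodies of bounded dimension and diameter: the segments between pairs
of points. (4) Normalisation: a linear map which commutes with the sign changes and makes the
covariance matrix the identity maps these bodies to bodies of the same form; the construction in (1)
shows that then all coordinates are bounded by `4 · 8^s`.
-/

set_option autoImplicit false

namespace Pool.Agent.Results.MP_dc1397_gt.BoundedRangeH40

open MeasureTheory Set
open scoped ENNReal InnerProductSpace
open Pool.Agent.Results.MP_dc1397_gt.LargeSections (Euc unif Body fibre Sectional HyperplaneBound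
  WeakPoincare)

/-- the change of the sign of the block `j`, that is of the coordinates `i` with `b i = j` -/
noncomputable def flipBlock {n : ℕ} (b : Fin n → ℕ) (j : ℕ) (x : Euc n) : Euc n :=
  WithLp.toLp 2 fun i => if b i = j then -x i else x i

/-- the blocks `0, …, j` of `x` and the blocks `j + 1, j + 2, …` of `y` -/
noncomputable def glueBlock {n : ℕ} (b : Fin n → ℕ) (j : ℕ) (x y : Euc n) : Euc n :=
  WithLp.toLp 2 fun i => if b i ≤ j then x i else y i

/-- The convex bodies with blocks of size at most `s`, invariant under the change of the sign of any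
block, and with constraints between neighbouring blocks only: if two points `x, y` of the body have the
same block `j`, then the first blocks of `x` up to `j` and the other blocks of `y` form a point of the
body. -/
structure ChainBody (s : ℕ) {n : ℕ} (b : Fin n → ℕ) (K : Set (Euc n)) : Prop where
  body : Body K
  small : ∀ j, (Finset.univ.filter fun i => b i = j).card ≤ s
  sign : ∀ j, ∀ x ∈ K, flipBlock b j x ∈ K
  markov : ∀ j, ∀ x ∈ K, ∀ y ∈ K, (∀ i, b i = j → x i = y i) → glueBlock b j x y ∈ K

/-- The Poincare inequalities `Var v(P x) ≤ A σ E ‖∇ v(P x)‖²` for all linear images `P x` of `x` (of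
law `μ`), all bounds `σ` for the variances of the marginals of `P x` in directions of length one, and
all bounded `C¹` functions `v` with bounded gradient. For `P = id` and the uniform measure of a convex body
this is the conjecture of Kannan, Lovasz and Simonovits if `A` is a universal constant. -/
def Poincare (A : ℝ) {M : ℕ} (μ : Measure (Euc M)) : Prop :=
  ∀ (k : ℕ) (P : Euc M →ₗ[ℝ] Euc k) (σ : ℝ), 0 < σ →
  (∀ θ : Euc k, ‖θ‖ = 1 → ProbabilityTheory.variance (fun x => ⟪P x, θ⟫_ℝ) μ ≤ σ) →
  ∀ (v : Euc k → ℝ) (C : ℝ), ContDiff ℝ 1 v → (∀ y, |v y| ≤ C) → (∀ y, ‖fderiv ℝ v y‖ ≤ C) →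
  ProbabilityTheory.variance (fun x => v (P x)) μ ≤ A * σ * ∫ x, ‖fderiv ℝ v (P x)‖ ^ 2 ∂μ

/-- The class of bodies. It contains the bodies `ChainBody q` (`base`). Bodies of depth `h + 1` are
obtained from those of depth `h` by
* images under affine maps with kernels of dimension at most `s` (`image`), and adding at most `s`
  dimensions (`lift`: all convex bodies `K` with a linear image, under a map with a kernel of dimension
  at most `s`, of depth `h`);
* `large`: the sections of codimension `j ≤ s` such that the parallel sections are at most `s` times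
  larger;
* `extend`: all convex bodies `K ⊂ ℝ^N × ℝ^j`, `j ≤ s`, which have one section parallel to `ℝ^N` of depth
  `h` such that the parallel sections are at most `s` times larger;
* `central`: the sections of codimension `j ≤ s` through the barycentre. -/
inductive ChainClass (q s : ℕ) : ℕ → ∀ {n : ℕ}, Set (Euc n) → Prop
  | base {n : ℕ} {b : Fin n → ℕ} {K : Set (Euc n)} : ChainBody q b K → ChainClass q s 0 K
  | up {h n : ℕ} {K : Set (Euc n)} : ChainClass q s h K → ChainClass q s (h + 1) K
  | image {h m n : ℕ} {K : Set (Euc m)} (T : Euc m →ₗ[ℝ] Euc n) (w : Euc n) : m ≤ n + s →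
      Function.Surjective T → ChainClass q s h K →
      ChainClass q s (h + 1) ((fun x => w + T x) '' K)
  | lift {h m n : ℕ} {K : Set (Euc m)} (T : Euc m →ₗ[ℝ] Euc n) : m ≤ n + s →
      Function.Surjective T → Body K → ChainClass q s h (T '' K) → ChainClass q s (h + 1) K
  | large {h N j n : ℕ} {K : Set (Euc n)} (e : (Euc N × Euc j) ≃ₗ[ℝ] Euc n) (t : Euc j) : j ≤ s →
      ChainClass q s h K → (∀ t', volume (fibre e K t') ≤ s * volume (fibre e K t)) →
      ChainClass q s (h + 1) (fibre e K t)
  | extend {h N j n : ℕ} {K : Set (Euc n)} (e : (Euc N × Euc j) ≃ₗ[ℝ] Euc n) (t : Euc j) : j ≤ s →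
      Body K → (∀ t', volume (fibre e K t') ≤ s * volume (fibre e K t)) →
      ChainClass q s h (fibre e K t) → ChainClass q s (h + 1) K
  | central {h N j n : ℕ} {K : Set (Euc n)} (e : (Euc N × Euc j) ≃ₗ[ℝ] Euc n) (t : Euc j) : j ≤ s →
      ChainClass q s h K → (∀ θ : Euc j, ∫ z, ⟪(e.symm z).2, θ⟫_ℝ ∂(unif K) = ⟪t, θ⟫_ℝ) →
      ChainClass q s (h + 1) (fibre e K t)

open Pool.Agent.R751.MB (AP)
open Pool.Agent.V7H40.TR (iW)
open Pool.Agent.V7H40.CH (CC co Chain)

theorem ap_chain (s : ℕ) : ∃ A : ℝ, 0 < A ∧ ∀ (n : ℕ) (b : Fin n → ℕ) (K : Set (Euc n)),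
    ChainBody s b K → AP A (iW K) := by
  refine ⟨CC (max s 1) (4 * 8 ^ (max s 1)) + 1, by
    have := Pool.Agent.V7H40.CH.CC_nonneg (max s 1) (4 * 8 ^ (max s 1))
    linarith, fun n b K h => ?_⟩
  have hc : Chain b (co K) := by
    refine ⟨Pool.Agent.V7H40.CH.co_comp h.body.comp, ?_, fun j x hx => h.sign j _ hx,
      fun j x hx y hy e => h.markov j _ hx _ hy e⟩
    intro x hx y hy u v hu hv huv
    exact h.body.conv hx hy hu hv huv
  have hv : volume K ≠ 0 := by
    obtain ⟨x, hx⟩ := h.body.int
    exact ((isOpen_interior.measure_pos volume ⟨x, hx⟩).trans_le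
      (measure_mono interior_subset)).ne'
  have h1 := Pool.Agent.V7H40.CH.ap_chain (le_max_right s 1)
    (fun j => (h.small j).trans (le_max_left s 1)) h.body.comp hc hv
  obtain ⟨S, h2, h3⟩ := h1.poi
  refine ⟨h1.adm, S, h2, fun f hf hb hd => (h3 f hf hb hd).trans ?_⟩
  refine mul_le_mul_of_nonneg_right (by linarith) ?_
  exact div_nonneg (integral_nonneg fun x => mul_nonneg (sq_nonneg _) (h1.adm.nonneg x))
    h1.adm.pos.le

/-- the Poincare inequality -/
theorem poincare_chain (s : ℕ) : ∃ A : ℝ, 0 < A ∧ ∀ (n : ℕ) (b : Fin n → ℕ) (K : Set (Euc n)),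
    ChainBody s b K → Poincare A (unif K) := by
  obtain ⟨A, hA, H⟩ := ap_chain s
  refine ⟨A, hA, fun n b K h => ?_⟩
  have h2 := H n b K h
  refine fun k P σ hσ hP v C hv hb hl => ?_
  have h3 : volume K ≠ 0 := by
    obtain ⟨x, hx⟩ := h.body.int
    exact ((isOpen_interior.measure_pos volume ⟨x, hx⟩).trans_le
      (measure_mono interior_subset)).ne'
  exact Pool.Agent.V7H40.TR.poi_un hA.le h.body.comp h3 h2 P hσ hP hv hb hl

theorem weak_of {A : ℝ} {M : ℕ} {μ : Measure (Euc M)} (h : Poincare A μ) :
    WeakPoincare (fun _ => A) μ := by
  intro δ hδ k P σ hσ hP v C hv hb hl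
  have h1 := h k P σ hσ hP v (max 1 C) hv (fun y => (hb y).trans (le_max_left _ _))
    fun y => (hl y).trans (le_max_right _ _)
  linarith

theorem sectional_of {q s h n : ℕ} {A : ℝ} (H : ∀ (n : ℕ) (b : Fin n → ℕ) (K : Set (Euc n)),
    ChainBody q b K → Poincare A (unif K)) {K : Set (Euc n)} (hK : ChainClass q s h K) :
    Sectional (fun _ => A) s h K := by
  induction hK with
  | base hb => exact .base hb.body (weak_of (H _ _ _ hb))
  | up _ ih => exact .up ih
  | image T w hm hT _ ih => exact .image T w hm hT ih
  | lift T hm hT hb _ ih => exact .lift T hm hT hb ih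
  | large e t hj _ ht ih => exact .large e t hj ih ht
  | extend e t hj hb ht _ ih => exact .extend e t hj hb ht ih
  | central e t hj _ ht ih => exact .central e t hj ih ht

/-- **The conjecture of Kannan, Lovasz and Simonovits for bodies with symmetric constraints of bounded
range.** For all `q` there is a constant `A` such that the uniform measures on the bodies `ChainBody q`, of
any dimension, satisfy `Poincare A`; and for all `s` and `h` there is a constant `C > 0` such that for all
`N ≥ 1` and all symmetric bodies `K ⊂ ℝ^N` of the class `ChainClass q s h`, the interior `Ω` of `K` has a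
central hyperplane section `Ω ∩ a^⊥` with `H_{N-1}(Ω ∩ a^⊥) ≤ C P(E; Ω)` for every measurable `E ⊆ Ω`
with `|E| = |Ω| / 2`. -/
theorem result : ∀ q : ℕ, ∃ A : ℝ, 0 < A ∧
    (∀ (N : ℕ) (b : Fin N → ℕ) (K : Set (Euc N)), ChainBody q b K → Poincare A (unif K)) ∧
    ∀ s h : ℕ, ∃ C : ℝ, 0 < C ∧ ∀ (N : ℕ) (K : Set (Euc N)), 1 ≤ N → ChainClass q s h K →
      (∀ x ∈ K, -x ∈ K) → HyperplaneBound C (interior K) := by
  intro q
  obtain ⟨A, hA, H⟩ := poincare_chain q
  refine ⟨A, hA, H, fun s h => ?_⟩
  obtain ⟨C, hC, H'⟩ := Pool.Agent.Results.MP_dc1397_gt.LargeSections.result (fun _ => A) s h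
  exact ⟨C, hC, fun N K hN hK hs => H' N K hN (sectional_of H hK) hs⟩

/-- Bodies given by constraints on pairs of neighbouring blocks: if the set `G j` of points depends only
on the blocks `j` and `j + 1` and is invariant under the sign changes of the blocks, for all `j`, and the
intersection `K` of the sets `G j` is a convex body, then `K` is of the form `ChainBody`. -/
theorem of_constraints {s n : ℕ} {b : Fin n → ℕ}
    (hs : ∀ j, (Finset.univ.filter fun i => b i = j).card ≤ s) (G : ℕ → Set (Euc n))
    (hG : ∀ j, ∀ x y : Euc n, (∀ i, b i = j ∨ b i = j + 1 → x i = y i) → x ∈ G j → y ∈ G j)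
    (hf : ∀ j k, ∀ x ∈ G j, flipBlock b k x ∈ G j) (hK : Body (⋂ j, G j)) :
    ChainBody s b (⋂ j, G j) := by
  refine ⟨hK, hs, fun k x hx => ?_, fun k x hx y hy e => ?_⟩
  · rw [mem_iInter] at hx ⊢
    exact fun j => hf j k x (hx j)
  · rw [mem_iInter] at hx hy ⊢
    intro j
    by_cases hj : j < k
    · refine hG j x _ (fun i hi => ?_) (hx j)
      change x i = if b i ≤ k then x i else y i
      rw [if_pos (by omega)]
    · refine hG j y _ (fun i hi => ?_) (hy j)
      change y i = if b i ≤ k then x i else y i
      by_cases h1 : b i ≤ k
      · rw [if_pos h1, e i (by omega)]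
      · rw [if_neg h1]

/-- Unconditional bodies with constraints of range `s`: if two points of the body have the same
coordinates `i` for `j ≤ i < j + s`, then the coordinates `i < j + s` of one of them and the
coordinates `i ≥ j + s` of the other one form a point of the body. They are of the form `ChainBody s`. -/
theorem finite_range {s n : ℕ} (hs : 0 < s) {K : Set (Euc n)} (hK : Body K)
    (hu : ∀ k : Fin n, ∀ x ∈ K, (WithLp.toLp 2 fun i => if i = k then -x i else x i) ∈ K)
    (hm : ∀ j : ℕ, ∀ x ∈ K, ∀ y ∈ K, (∀ i : Fin n, j ≤ i → (i : ℕ) < j + s → x i = y i) →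
      (WithLp.toLp 2 fun i : Fin n => if (i : ℕ) < j + s then x i else y i) ∈ K) :
    ChainBody s (fun i : Fin n => (i : ℕ) / s) K := by
  classical
  refine ⟨hK, fun j => ?_, fun j x hx => ?_, fun j x hx y hy e => ?_⟩
  · have h1 : (Finset.univ.filter fun i : Fin n => (i : ℕ) / s = j).card ≤
        (Finset.Ico (j * s) (j * s + s)).card := by
      refine Finset.card_le_card_of_injOn (fun i => (i : ℕ)) (fun i hi => ?_)
        (fun i _ i' _ e => Fin.ext e)
      have hi' : (i : ℕ) / s = j := (Finset.mem_filter.1 hi).2
      have h2 := Nat.div_add_mod (i : ℕ) s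
      have h3 := Nat.mod_lt (i : ℕ) hs
      rw [hi'] at h2
      have h4 : s * j = j * s := mul_comm _ _
      have h5 : j * s ≤ (i : ℕ) ∧ (i : ℕ) < j * s + s := ⟨by omega, by omega⟩
      exact Finset.mem_coe.2 (Finset.mem_Ico.2 h5)
    rw [Nat.card_Ico] at h1
    omega
  · have key : ∀ T : Finset (Fin n), (WithLp.toLp 2 fun i => if i ∈ T then -x i else x i) ∈ K := by
      intro T
      induction T using Finset.induction_on with
      | empty => simpa using hx
      | insert k T hk ih =>
        have h1 := hu k _ ih
        convert h1 using 2
        funext i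
        change (if i ∈ insert k T then -x i else x i) =
          if i = k then -(if i ∈ T then -x i else x i) else (if i ∈ T then -x i else x i)
        by_cases h2 : i = k
        · subst h2
          rw [if_pos (Finset.mem_insert_self _ _), if_pos rfl, if_neg hk]
        · rw [if_neg h2]
          simp only [Finset.mem_insert, h2, false_or]
    have h3 := key (Finset.univ.filter fun i : Fin n => (i : ℕ) / s = j)
    convert h3 using 1
    unfold flipBlock
    congr 1
    funext i
    simp only [Finset.mem_filter, Finset.mem_univ, true_and]
  · have h1 := hm (j * s) x hx y hy fun i h2 h3 => e i (by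
      refine Nat.div_eq_of_lt_le ?_ ?_
      · exact h2
      · rw [Nat.succ_mul]
        exact h3)
    convert h1 using 1
    unfold glueBlock
    congr 1
    funext i
    have h4 : (i : ℕ) / s ≤ j ↔ (i : ℕ) < j * s + s := by
      rw [← Nat.lt_succ_iff, Nat.div_lt_iff_lt_mul hs, Nat.succ_mul]
    simp only [h4]

end Pool.Agent.Results.MP_dc1397_gt.BoundedRangeH40
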