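import Pool.Agent.V7H69.EM.St
import Pool.Agent.Results.MP_dc1397_gt.GibbsLevelSets

/-!
# The hyperplane conjecture of KLS: bodies with second-order cone representations

Q1 for all symmetric bodies `T K`, where `T` is an arbitrary affine map (a projection to a space of any
dimension) and `K ⊂ ℝ^m` is a compact convex set of the following form (`Sliced`): there are `ρ` linear
functionals such that every slice of `K` on which they are constant is a set `{x | S(x) ∈ D}`
(`Constrained`). Here `D ⊂ ℝ^r` is any closed convex set and `S : ℝ^m → ℝ^r` is a map such that, for all `θ`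
which are nonnegative on the cone `Down D = {v | D - v ⊆ D}`, the function `⟪θ, S⟫` has pinched curvature:
there is a positive semidefinite quadratic form `Q_θ`, of any rank, such that `⟪θ, S⟫ - κ⁻¹ Q_θ` and
`κ Q_θ - ⟪θ, S⟫` are convex. For quadratic maps `S` this says that `S` is convex for the order given by the
cone `Down D` (`quadratic_maps`). The constant depends only on `κ, r, ρ`, not on the dimensions of `K`, of
`T K` and of the kernel of `T`. Examples, proved below:

* (`representable`) all symmetric bodies which have a second-order cone representation with `r` cones and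
  a convex constraint on `s` linear functionals: projections, of any codimension, of sections, by affine
  subspaces of any dimension, of `C_1 × … × C_r × D`, `C_j` Lorentz cones of arbitrary dimensions, `D ⊂ ℝ^s`
  convex. The constant depends only on `r + s`;
* (`ellipsoid_sums`) Minkowski sums and convex hulls of unions of `r` ellipsoids, and their sums in the
  sense of Firey;
* (`sub_quotients`) the unit balls of all quotients of subspaces of `ℓ_p` sums, `1 ≤ p ≤ ∞`, or sums for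
  other monotone norms, of `r` Hilbert spaces;
* (`operator_norm`) the unit balls of all quotients of subspaces of the space of `k × q` matrices with
  the operator norm; the constant depends only on `q`.

For `r = 1`, `ρ = 0` a symmetric set of this kind is an ellipsoid up to a factor. Two centred ellipsoids
have common axes, so their intersection and sum are unconditional; for three or more there is no such
structure. In `ConicPrograms` the number of cones is arbitrary, but the section has bounded codimension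
and the projection a kernel of bounded dimension; here the number of cones is bounded, and sections and
projections are arbitrary. In `FewInequalities` there are `r` inequalities between sums of functions of
blocks of variables, again with kernels of bounded dimension.

Method. (1) Densities `exp (-l f)` with `f` pinched satisfy the inequality of Kannan, Lovasz and
Simonovits (Brascamp and Lieb, and a discrete form of the inequality of Cramer and Rao), so the level
sets of `f` have the concentration property (`GibbsLevelSets`, for one function). (2) Functions with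
pinched curvature are stable under minimisation over some of the variables (`pin_image`; for quadratic
forms this is the Schur complement), so images of their level sets are level sets. (3) For a cone `C` with
interior points, the volume `φ(s)` of `T {x | s - S(x) ∈ C}` is a log-concave function of `s ∈ ℝ^r`; a
supporting functional `λ` of `log φ` at a point near `s₀` shows that `T {x | s₀ - S(x) ∈ C}` is a large
section of a body in `ℝⁿ × ℝ^r` over `T {x | ⟪λ, S(x)⟫ ≤ e}` (`coreT`); here `|x|²` is used as one more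
coordinate of `S`, so there is no condition on the sign. (4) If `Down D` has interior points, `T {S ∈ D}`
is the projection of a body over the values `s ∈ D` with such fibres; a strict point is not necessary,
since `T {S ∈ D}` is a large section of a body over `T {S ∈ D + δ u}`. (5) For general `D` the map `S` is
affine modulo the span of `Down D`; this part is replaced by two inequalities (`pgen`). (6) The body
`(T, Φ) K` is fibred over the values of the `ρ` functionals (`sli_cy`). The concentration property passes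
through projections and liftings with kernels of bounded dimension and to large sections and back
(`LargeSections`, `ImagesOfSections`), and gives the isoperimetric inequality.
-/

set_option autoImplicit false

namespace Pool.Agent.Results.MP_dc1397_gt.ConeRepresentationsH69

open MeasureTheory Set
open scoped ENNReal InnerProductSpace

/-- Euclidean space of dimension `n` -/
abbrev Euc (n : ℕ) : Type := EuclideanSpace ℝ (Fin n)

/-- the Lebesgue measure of a Euclidean space -/
noncomputable def lebesgue (F : Type) [NormedAddCommGroup F] [InnerProductSpace ℝ F]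
    [FiniteDimensional ℝ F] [MeasurableSpace F] [BorelSpace F] : Measure F := volume

/-- the Lebesgue measure (of the Euclidean space `W`) of the section `Ω ∩ W` by a subspace `W` -/
noncomputable def areaIn {F : Type} [NormedAddCommGroup F] [InnerProductSpace ℝ F]
    [FiniteDimensional ℝ F] [MeasurableSpace F] [BorelSpace F] (W : Submodule ℝ F) (Ω : Set F) :
    ℝ≥0∞ := lebesgue W {y : W | (y : F) ∈ Ω}

section defs

variable {κ : Type} [Fintype κ]

open Classical in
/-- divergence of a vector field on `ℝ^κ` -/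
noncomputable def divergence (X : EuclideanSpace ℝ κ → EuclideanSpace ℝ κ)
    (x : EuclideanSpace ℝ κ) : ℝ :=
  ∑ i, fderiv ℝ X x (EuclideanSpace.single i 1) i

/-- `C¹` vector fields with compact support in `Ω` and `‖X‖ ≤ 1` -/
structure Test (Ω : Set (EuclideanSpace ℝ κ)) (X : EuclideanSpace ℝ κ → EuclideanSpace ℝ κ) :
    Prop where
  diff : ContDiff ℝ 1 X
  comp : HasCompactSupport X
  sub : tsupport X ⊆ Ω
  le : ∀ x, ‖X x‖ ≤ 1

/-- the (De Giorgi) perimeter `P(E; Ω)` of `E` relative to the open set `Ω` -/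
noncomputable def perimeter (E Ω : Set (EuclideanSpace ℝ κ)) : ℝ≥0∞ :=
  ⨆ (X : EuclideanSpace ℝ κ → EuclideanSpace ℝ κ) (_ : Test Ω X),
    ENNReal.ofReal (∫ x in E, divergence X x)

/-- the area (Lebesgue measure in the hyperplane `a^⊥`) of the central section of `Ω` by `a^⊥` -/
noncomputable def sectionArea (Ω : Set (EuclideanSpace ℝ κ)) (a : EuclideanSpace ℝ κ) : ℝ≥0∞ :=
  areaIn (Submodule.span ℝ {a})ᗮ Ω

/-- some central hyperplane section has area at most `C P(E; Ω)` for every measurable `E ⊆ Ω` with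
`|E| = |Ω| / 2` -/
def HyperplaneBound (C : ℝ) (Ω : Set (EuclideanSpace ℝ κ)) : Prop :=
  ∃ a : EuclideanSpace ℝ κ, a ≠ 0 ∧ ∀ E : Set (EuclideanSpace ℝ κ), MeasurableSet E → E ⊆ Ω →
    volume E = volume Ω / 2 → sectionArea Ω a ≤ ENNReal.ofReal C * perimeter E Ω

/-- the perimeter is the one used in the proof -/
theorem perimeter_eq (E Ω : Set (EuclideanSpace ℝ κ)) :
    Pool.Agent.Results.MP_dc1397_gt.GibbsLevelSets.perimeter E Ω = perimeter E Ω := by
  unfold perimeter Pool.Agent.Results.MP_dc1397_gt.GibbsLevelSets.perimeter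
  refine iSup_congr fun X => ?_
  exact iSup_congr_Prop ⟨fun h => ⟨h.diff, h.comp, h.sub, h.le⟩,
    fun h => ⟨h.diff, h.comp, h.sub, h.le⟩⟩ fun _ => rfl

theorem bound_of {C : ℝ} {Ω : Set (EuclideanSpace ℝ κ)}
    (h : Pool.Agent.Results.MP_dc1397_gt.GibbsLevelSets.HyperplaneBound C Ω) :
    HyperplaneBound C Ω := by
  obtain ⟨a, ha, H⟩ := h
  refine ⟨a, ha, fun E h1 h2 h3 => ?_⟩
  rw [← perimeter_eq]
  exact H E h1 h2 h3

end defs

/-- `f - κ⁻¹ ‖B x‖²` and `κ ‖B x‖² - f` are convex for a linear map `B` (for `f` of class `C²`: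
`2 κ⁻¹ BᵀB ≤ f'' ≤ 2 κ BᵀB`); `B = 0` for affine functions -/
def Pinched (κ : ℝ) {m : ℕ} (f : Euc m → ℝ) : Prop :=
  ∃ (k : ℕ) (B : Euc m →ₗ[ℝ] Euc k), ConvexOn ℝ univ (fun x => f x - κ⁻¹ * ‖B x‖ ^ 2) ∧
    ConvexOn ℝ univ fun x => κ * ‖B x‖ ^ 2 - f x

/-- the vectors `v` with `D - v ⊆ D` -/
def Down {r : ℕ} (D : Set (Euc r)) : Set (Euc r) := {v | ∀ y ∈ D, y - v ∈ D}

/-- sets `{x | S(x) ∈ D}`, `D ⊆ ℝ^r` closed and convex, such that the functional `⟪θ, S⟫` is pinched for
every `θ` which is nonnegative on `Down D` -/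
def Constrained (κ : ℝ) (r : ℕ) {m : ℕ} (K : Set (Euc m)) : Prop :=
  ∃ (S : Euc m → Euc r) (D : Set (Euc r)), IsClosed D ∧ Convex ℝ D ∧ Continuous S ∧
    (∀ θ : Euc r, (∀ v ∈ Down D, 0 ≤ ⟪θ, v⟫_ℝ) → Pinched κ fun x => ⟪θ, S x⟫_ℝ) ∧
    K = {x | S x ∈ D}

/-- compact convex sets `K`, such that for a linear map `Φ` to `ℝ^ρ` all nonempty slices of `K` on which
`Φ` is constant have the property `Constrained` -/
structure Sliced (κ : ℝ) (r ρ : ℕ) {m : ℕ} (K : Set (Euc m)) : Prop where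
  compact : IsCompact K
  convex : Convex ℝ K
  slices : ∃ Φ : Euc m →ₗ[ℝ] Euc ρ, ∀ x₀ ∈ K, Constrained κ r (K ∩ {x | Φ x = Φ x₀})

theorem Sliced.sli {κ : ℝ} {r ρ m : ℕ} {K : Set (Euc m)} (h : Sliced κ r ρ K) :
    Pool.Agent.V7H69.EM.Sli κ r ρ K := by
  obtain ⟨h1, h2, Φ, h3⟩ := h
  refine ⟨h1, h2, Φ, fun x₀ hx₀ => ?_⟩
  obtain ⟨S, D, q1, q2, q3, q4, q5⟩ := h3 x₀ hx₀
  refine ⟨S, D, q1, q2, q3, fun θ hθ => ?_, q5⟩
  obtain ⟨k, B, g1, g2⟩ := q4 θ hθ
  exact ⟨k, B, g1, g2⟩

/-- **Images of sets with slices given by constraints on few functions.** For all `κ > 0`, `r`, `ρ` there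
is a constant `C > 0` such that, for every `K ⊂ ℝ^m` with the property `Sliced κ r ρ` and every affine map
`T : ℝ^m → ℝⁿ`, `1 ≤ n`, such that `T K` is symmetric and has interior points, the interior `Ω` of `T K`
has a central hyperplane section `Ω ∩ a^⊥` with `H_{n-1}(Ω ∩ a^⊥) ≤ C P(E; Ω)` for every measurable
`E ⊆ Ω` with `|E| = |Ω| / 2`. -/
theorem result : ∀ (κ : ℝ) (r ρ : ℕ), 0 < κ → ∃ C : ℝ, 0 < C ∧
    ∀ (m n : ℕ) (K : Set (Euc m)) (T : Euc m →ᵃ[ℝ] Euc n), 1 ≤ n → Sliced κ r ρ K →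
    (interior (T '' K)).Nonempty → (∀ x ∈ T '' K, -x ∈ T '' K) →
    HyperplaneBound C (interior (T '' K)) := by
  intro κ r ρ hκ
  obtain ⟨c, hc, H⟩ := Pool.Agent.V7H69.EM.sli_star κ hκ r ρ
  obtain ⟨C, hC, H'⟩ := Pool.Agent.Results.MP_dc1397_gt.GibbsLevelSets.hyper_of c hc
  refine ⟨C, hC, fun m n K T hn hK hi hs => ?_⟩
  have e1 : T '' K = (fun y => y + T 0) '' (T.linear '' K) := by
    rw [image_image]
    refine image_congr fun x _ => ?_
    have h1 := T.map_vadd 0 x
    simp only [vadd_eq_add, add_zero] at h1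
    exact h1
  have hi' : (interior (T.linear '' K)).Nonempty := by
    rw [e1] at hi
    obtain ⟨y, hy⟩ := hi
    have h2 : IsOpen ((fun y => y - T 0) '' interior ((fun y => y + T 0) '' (T.linear '' K))) :=
      (Homeomorph.subRight (T 0)).isOpenMap _ isOpen_interior
    refine ⟨y - T 0, interior_maximal ?_ h2 ⟨y, hy, rfl⟩⟩
    rintro _ ⟨z, hz, rfl⟩
    obtain ⟨x, hx, hxz⟩ := interior_subset hz
    have h3 : z - T 0 = x := by
      rw [← hxz]
      change x + T 0 - T 0 = x
      abel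
    change z - T 0 ∈ T.linear '' K
    rw [h3]
    exact hx
  have hT' : Function.Surjective T.linear := by
    rw [← LinearMap.range_eq_top]
    refine Submodule.eq_top_of_nonempty_interior' _ (hi'.mono (interior_mono ?_))
    rintro _ ⟨x, -, rfl⟩
    exact ⟨x, rfl⟩
  have h5 := H m n _ T.linear (T 0) hK.sli hT' hi'
  rw [← Pool.Agent.Results.MP_dc1397_gt.GibbsLevelSets.affine_eq] at h5
  obtain ⟨h1, h2, h3, h4⟩ := h5
  exact bound_of (H' n _ hn h1 h2 h3 h4 hs)

/-! ### Examples -/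

/-- bounded sets with the property `Constrained` are `Sliced` (with no functionals) -/
theorem Constrained.sliced {κ : ℝ} (hκ : 0 < κ) {r m : ℕ} {K : Set (Euc m)}
    (h : Constrained κ r K) (hb : Bornology.IsBounded K) : Sliced κ r 0 K := by
  have h0 := h
  obtain ⟨S, D, q1, q2, q3, q4, q5⟩ := h
  have hcl : IsClosed K := by
    rw [q5]
    exact q1.preimage q3
  refine ⟨Metric.isCompact_of_isClosed_isBounded hcl hb, ?_, 0, fun x₀ _ => ?_⟩
  · rw [q5]
    refine Pool.Agent.V7H69.EM.set_convex q1 q2 fun θ hθ => ?_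
    obtain ⟨k, B, g1, g2⟩ := q4 θ hθ
    exact Pool.Agent.V7H69.EL.PinB.cvx (B := B) hκ ⟨g1, g2⟩
  · have e1 : K ∩ {x | (0 : Euc m →ₗ[ℝ] Euc 0) x = (0 : Euc m →ₗ[ℝ] Euc 0) x₀} = K := by
      ext x
      exact ⟨fun hx => hx.1, fun hx => ⟨hx, rfl⟩⟩
    rwa [e1]

/-- sums of squares of norms of linear maps -/
theorem stack {r m : ℕ} {k : Fin r → ℕ} (B : ∀ j, Euc m →ₗ[ℝ] Euc (k j)) (c : Fin r → ℝ)
    (hc : ∀ j, 0 ≤ c j) : ∃ (n : ℕ) (B' : Euc m →ₗ[ℝ] Euc n),
      ∀ z, ‖B' z‖ ^ 2 = ∑ j, c j * ‖B j z‖ ^ 2 := by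
  let L : Euc m →ₗ[ℝ] PiLp 2 (fun j => Euc (k j)) :=
    (WithLp.linearEquiv 2 ℝ (∀ j, Euc (k j))).symm.toLinearMap ∘ₗ
      (LinearMap.pi fun j => (Real.sqrt (c j)) • B j)
  have hL : ∀ z, ‖L z‖ ^ 2 = ∑ j, c j * ‖B j z‖ ^ 2 := by
    intro z
    rw [PiLp.norm_sq_eq_of_L2]
    refine Finset.sum_congr rfl fun j _ => ?_
    have h1 : L z j = (Real.sqrt (c j)) • B j z := rfl
    rw [h1, norm_smul, mul_pow, Real.norm_eq_abs, sq_abs, Real.sq_sqrt (hc j)]
  let e := (stdOrthonormalBasis ℝ (PiLp 2 (fun j => Euc (k j)))).repr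
  refine ⟨_, e.toLinearEquiv.toLinearMap ∘ₗ L, fun z => ?_⟩
  rw [← hL z]
  exact congrArg (· ^ 2) (e.norm_map (L z))

/-- quadratic forms are weighted sums of squares -/
theorem quad_repr {m : ℕ} (q : QuadraticForm ℝ (Euc m)) : ∃ (n : ℕ) (w : Fin n → ℝ)
    (e : Euc m ≃ₗ[ℝ] (Fin n → ℝ)), ∀ x, q x = ∑ i, w i * e x i ^ 2 := by
  obtain ⟨w, ⟨e⟩⟩ := q.equivalent_weightedSumSquares
  refine ⟨_, w, e.toLinearEquiv, fun x => ?_⟩
  rw [← e.map_app x, QuadraticMap.weightedSumSquares_apply]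
  refine Finset.sum_congr rfl fun i _ => ?_
  rw [smul_eq_mul, sq]
  rfl

theorem quad_cont {m : ℕ} (q : QuadraticForm ℝ (Euc m)) : Continuous q := by
  obtain ⟨n, w, e, he⟩ := quad_repr q
  have h1 : Continuous e := e.toLinearMap.continuous_of_finiteDimensional
  have h2 : (q : Euc m → ℝ) = fun x => ∑ i, w i * e x i ^ 2 := funext he
  rw [h2]
  fun_prop

/-- nonnegative quadratic forms are squares of norms -/
theorem quad_sq {m : ℕ} (q : QuadraticForm ℝ (Euc m)) (hq : ∀ x, 0 ≤ q x) :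
    ∃ (n : ℕ) (B : Euc m →ₗ[ℝ] Euc n), ∀ x, ‖B x‖ ^ 2 = q x := by
  classical
  obtain ⟨n, w, e, he⟩ := quad_repr q
  have hw : ∀ i, 0 ≤ w i := by
    intro i
    have h1 := hq (e.symm (Pi.single i 1))
    rw [he, LinearEquiv.apply_symm_apply] at h1
    have h2 : ∑ j, w j * (Pi.single i (1 : ℝ) : Fin n → ℝ) j ^ 2 = w i := by
      rw [Finset.sum_eq_single i (fun j _ hj => by rw [Pi.single_eq_of_ne hj]; ring)
        (fun h => absurd (Finset.mem_univ i) h), Pi.single_eq_same]
      ring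
    rwa [h2] at h1
  let B : Euc m →ₗ[ℝ] Euc n := (WithLp.linearEquiv 2 ℝ (Fin n → ℝ)).symm.toLinearMap ∘ₗ
    (LinearMap.pi fun i => (Real.sqrt (w i)) • ((LinearMap.proj i) ∘ₗ e.toLinearMap))
  refine ⟨n, B, fun x => ?_⟩
  rw [EuclideanSpace.norm_sq_eq, he]
  refine Finset.sum_congr rfl fun i _ => ?_
  have h1 : B x i = Real.sqrt (w i) * e x i := rfl
  rw [h1, Real.norm_eq_abs, sq_abs, mul_pow, Real.sq_sqrt (hw i)]

/-- constraints on the values in other spaces of finite dimension -/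
theorem of_space {κ : ℝ} {m : ℕ} {F : Type} [NormedAddCommGroup F] [NormedSpace ℝ F]
    [FiniteDimensional ℝ F] {S : Euc m → F} {D : Set F} (hD : IsClosed D) (hD' : Convex ℝ D)
    (hS : Continuous S) (h : ∀ f : F →ₗ[ℝ] ℝ, (∀ v, (∀ y ∈ D, y - v ∈ D) → 0 ≤ f v) →
      Pinched κ fun x => f (S x)) {K : Set (Euc m)} (hK : K = {x | S x ∈ D}) :
    Constrained κ (Module.finrank ℝ F) K := by
  let Φ : F ≃ₗ[ℝ] Euc (Module.finrank ℝ F) := LinearEquiv.ofFinrankEq _ _ (by simp)
  have hΦ : Continuous Φ := Φ.toLinearMap.continuous_of_finiteDimensional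
  have hΦs : Continuous Φ.symm := Φ.symm.toLinearMap.continuous_of_finiteDimensional
  refine ⟨fun x => Φ (S x), Φ.symm ⁻¹' D, hD.preimage hΦs,
    hD'.linear_preimage Φ.symm.toLinearMap, hΦ.comp hS, fun θ hθ => ?_, ?_⟩
  · refine h ((innerₛₗ ℝ θ) ∘ₗ Φ.toLinearMap) fun v hv => hθ (Φ v) fun y hy => ?_
    change Φ.symm (y - Φ v) ∈ D
    rw [map_sub, LinearEquiv.symm_apply_apply]
    exact hv _ hy
  · rw [hK]
    ext x
    change S x ∈ D ↔ Φ.symm (Φ (S x)) ∈ D
    rw [LinearEquiv.symm_apply_apply]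

/-- Example: sets defined by `r` inequalities `S_j(x) ≤ e_j` between functions with pinched curvature,
and `ρ` linear equations -/
theorem few_pinched {κ : ℝ} {r ρ m : ℕ} {S : Fin r → Euc m → ℝ} {e : Fin r → ℝ}
    (Ψ : Euc m →ₗ[ℝ] Euc ρ) (v : Euc ρ) (hκ : 0 < κ) (hS : ∀ j, Pinched κ (S j))
    {K : Set (Euc m)} (hK : K = {x | (∀ j, S j x ≤ e j) ∧ Ψ x = v}) :
    Constrained κ (r + ρ) K := by
  classical
  choose k B hB using hS
  have hcv : ∀ j, ConvexOn ℝ univ (S j) := fun j =>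
    Pool.Agent.V7H69.EL.PinB.cvx (B := B j) hκ ⟨(hB j).1, (hB j).2⟩
  have hSc : ∀ j, Continuous (S j) := fun j => (hcv j).locallyLipschitz.continuous
  have hΨ : Continuous Ψ := Ψ.continuous_of_finiteDimensional
  have hfr : Module.finrank ℝ ((Fin r → ℝ) × Euc ρ) = r + ρ := by simp
  rw [← hfr]
  refine of_space (S := fun x => ((fun j => S j x), Ψ x)) (D := {y | (∀ j, y.1 j ≤ e j) ∧ y.2 = v})
    ?_ ?_ ((continuous_pi hSc).prodMk hΨ) (fun f hf => ?_) hK
  · have e1 : {y : (Fin r → ℝ) × Euc ρ | (∀ j, y.1 j ≤ e j) ∧ y.2 = v} =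
        (⋂ j, {y : (Fin r → ℝ) × Euc ρ | y.1 j ≤ e j}) ∩ {y | y.2 = v} := by
      ext y
      simp
    rw [e1]
    exact (isClosed_iInter fun j => isClosed_le (by fun_prop) continuous_const).inter
      (isClosed_eq continuous_snd continuous_const)
  · intro x hx y hy a b ha hb' hab
    refine ⟨fun j => ?_, ?_⟩
    · have hx' : x.1 j ≤ e j := hx.1 j
      have hy' : y.1 j ≤ e j := hy.1 j
      change a * x.1 j + b * y.1 j ≤ e j
      calc a * x.1 j + b * y.1 j ≤ a * e j + b * e j := by gcongr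
        _ = e j := by rw [← add_mul, hab, one_mul]
    · change a • x.2 + b • y.2 = v
      rw [hx.2, hy.2, ← add_smul, hab, one_smul]
  · -- the coefficients
    obtain ⟨θ, hθ⟩ : ∃ θ : Fin r → ℝ, ∀ j, θ j = f (Pi.single j 1, 0) := ⟨_, fun _ => rfl⟩
    have hθ0 : ∀ j, 0 ≤ θ j := by
      intro j
      rw [hθ]
      refine hf _ fun y hy => ⟨fun i => ?_, ?_⟩
      · have h2 : y.1 i ≤ e i := hy.1 i
        change y.1 i - (Pi.single j (1 : ℝ) : Fin r → ℝ) i ≤ e i
        have h3 : 0 ≤ (Pi.single j (1 : ℝ) : Fin r → ℝ) i := by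
          rw [Pi.single_apply]
          split_ifs <;> norm_num
        linarith
      · change y.2 - 0 = v
        rw [sub_zero]
        exact hy.2
    let g : Euc m →ₗ[ℝ] ℝ := f ∘ₗ (LinearMap.inr ℝ (Fin r → ℝ) (Euc ρ)) ∘ₗ Ψ
    have hsum : ∀ x, f ((fun j => S j x), Ψ x) = ∑ j, θ j * S j x + g x := by
      intro x
      have h1 : (((fun j => S j x), Ψ x) : (Fin r → ℝ) × Euc ρ) =
          ∑ j, (S j x) • ((Pi.single j 1, 0) : (Fin r → ℝ) × Euc ρ) + (0, Ψ x) := by
        refine Prod.ext ?_ ?_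
        · funext i
          simp [Prod.fst_sum, Finset.sum_apply, Pi.single_apply]
        · simp [Prod.snd_sum]
      rw [h1, map_add, map_sum]
      have h2 : f (0, Ψ x) = g x := rfl
      rw [h2]
      congr 1
      refine Finset.sum_congr rfl fun j _ => ?_
      rw [map_smul, hθ, smul_eq_mul]
      ring
    obtain ⟨n, B', hB'⟩ := stack B θ hθ0
    have hconv : ∀ (q : Fin r → Euc m → ℝ), (∀ j, ConvexOn ℝ univ (q j)) →
        ConvexOn ℝ univ fun x => ∑ j, θ j * q j x := by
      intro q hq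
      have h4 : ∀ t : Finset (Fin r), ConvexOn ℝ univ fun x => ∑ j ∈ t, θ j * q j x := by
        intro t
        induction t using Finset.induction_on with
        | empty => simpa using convexOn_const (𝕜 := ℝ) (0 : ℝ) (convex_univ (E := Euc m))
        | insert i t hi ih =>
          refine (((hq i).smul (hθ0 i)).add ih).congr fun x _ => ?_
          rw [Finset.sum_insert hi]
          rfl
      exact h4 _
    refine ⟨n, B', ?_, ?_⟩
    · have h1 := (hconv (fun j x => S j x - κ⁻¹ * ‖B j x‖ ^ 2) fun j => (hB j).1).add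
        (Pool.Agent.V7H69.EL.cvx_aff g 0)
      refine h1.congr fun x _ => ?_
      simp only [Pi.add_apply, hsum, hB', mul_sub, Finset.sum_sub_distrib, Finset.mul_sum]
      have h2 : ∑ j, θ j * (κ⁻¹ * ‖B j x‖ ^ 2) = ∑ j, κ⁻¹ * (θ j * ‖B j x‖ ^ 2) :=
        Finset.sum_congr rfl fun j _ => by ring
      rw [h2]
      ring
    · have h1 := (hconv (fun j x => κ * ‖B j x‖ ^ 2 - S j x) fun j => (hB j).2).add
        (Pool.Agent.V7H69.EL.cvx_aff (-g) 0)
      refine h1.congr fun x _ => ?_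
      simp only [Pi.add_apply, hsum, hB', mul_sub, Finset.sum_sub_distrib, Finset.mul_sum,
        LinearMap.neg_apply]
      have h2 : ∑ j, θ j * (κ * ‖B j x‖ ^ 2) = ∑ j, κ * (θ j * ‖B j x‖ ^ 2) :=
        Finset.sum_congr rfl fun j _ => by ring
      rw [h2]
      ring

/-- Example: the sets `{x | Q(x) + l(x) + c ∈ D}`, for homogeneous quadratic maps `Q`, linear maps `l` and
points `c` of a space `F` of finite dimension, and closed convex sets `D ⊆ F` such that
`D - Q(x) ⊆ D` for all `x` -/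
theorem quadratic_maps {m : ℕ} {F : Type} [NormedAddCommGroup F] [NormedSpace ℝ F]
    [FiniteDimensional ℝ F] (Q : QuadraticMap ℝ (Euc m) F) (l : Euc m →ₗ[ℝ] F) (c : F) {D : Set F}
    (hD : IsClosed D) (hD' : Convex ℝ D) (hQ : ∀ x, ∀ y ∈ D, y - Q x ∈ D) {K : Set (Euc m)}
    (hK : K = {x | Q x + l x + c ∈ D}) : Constrained 1 (Module.finrank ℝ F) K := by
  have hlc : Continuous l := l.continuous_of_finiteDimensional
  have hQc : Continuous Q := by
    let Φ := Module.finBasis ℝ F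
    have h1 : ∀ i, Continuous fun x => Φ.coord i (Q x) := fun i =>
      quad_cont ((Φ.coord i).compQuadraticMap Q)
    have h2 : (Q : Euc m → F) = fun x => ∑ i, Φ.coord i (Q x) • Φ i := by
      funext x
      exact (Φ.sum_repr (Q x)).symm
    rw [h2]
    exact continuous_finsetSum _ fun i _ => (h1 i).smul continuous_const
  refine of_space hD hD' ((hQc.add hlc).add continuous_const) (fun f hf => ?_) hK
  obtain ⟨n, B, hB⟩ := quad_sq (f.compQuadraticMap Q) fun x => hf _ (hQ x)
  have hB' : ∀ x, ‖B x‖ ^ 2 = f (Q x) := hB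
  refine ⟨n, B, ?_, ?_⟩
  · refine (Pool.Agent.V7H69.EL.cvx_aff (f ∘ₗ l) (f c)).congr fun x _ => ?_
    rw [hB']
    change f (l x) + f c = f (Q x + l x + c) - 1⁻¹ * f (Q x)
    rw [map_add, map_add]
    ring
  · refine (Pool.Agent.V7H69.EL.cvx_aff (-(f ∘ₗ l)) (-(f c))).congr fun x _ => ?_
    rw [hB']
    change -f (l x) + -f c = 1 * f (Q x) - f (Q x + l x + c)
    rw [map_add, map_add]
    ring

theorem sq_pinched {m k : ℕ} (B : Euc m →ₗ[ℝ] Euc k) (b : Euc k) :
    Pinched 1 fun x => ‖B x + b‖ ^ 2 := by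
  let f : Euc m →ₗ[ℝ] ℝ := (innerₛₗ ℝ b) ∘ₗ B
  have hf : ∀ x, f x = ⟪B x, b⟫_ℝ := fun x => by
    change ⟪b, B x⟫_ℝ = _
    exact real_inner_comm _ _
  refine ⟨k, B, ?_, ?_⟩
  · refine (Pool.Agent.V7H69.EL.cvx_aff ((2 : ℝ) • f) (‖b‖ ^ 2)).congr fun x _ => ?_
    simp only [LinearMap.smul_apply, smul_eq_mul, hf, norm_add_sq_real]
    ring
  · refine (Pool.Agent.V7H69.EL.cvx_aff ((-2 : ℝ) • f) (-‖b‖ ^ 2)).congr fun x _ => ?_
    simp only [LinearMap.smul_apply, smul_eq_mul, hf, norm_add_sq_real]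
    ring

/-- Example: compact sets defined by `r` second-order cone constraints `‖A_j x + b_j‖ ≤ ⟪c_j, x⟫ + d_j`
with arbitrary data and an arbitrary convex constraint `U x ∈ D` on the values of `s` linear
functionals. In other words: the sections of `C_1 × … × C_r × D`, `C_j` Lorentz cones of arbitrary
dimensions, `D ⊂ ℝ^s` convex, by affine subspaces of any dimension. -/
theorem cones {r s m : ℕ} (k : Fin r → ℕ) (A : ∀ j, Euc m →ₗ[ℝ] Euc (k j)) (b : ∀ j, Euc (k j))
    (c : Fin r → Euc m) (d : Fin r → ℝ) (U : Euc m →ₗ[ℝ] Euc s) {D : Set (Euc s)}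
    (hD : Convex ℝ D) {K : Set (Euc m)}
    (hK : K = {x | (∀ j, ‖A j x + b j‖ ≤ ⟪c j, x⟫_ℝ + d j) ∧ U x ∈ D}) (hc : IsCompact K) :
    Sliced 1 (r + (r + s)) (r + s) K := by
  let Φ₀ : Euc m →ₗ[ℝ] ((Fin r → ℝ) × Euc s) := (LinearMap.pi fun j => innerₛₗ ℝ (c j)).prod U
  let e : ((Fin r → ℝ) × Euc s) ≃ₗ[ℝ] Euc (r + s) := LinearEquiv.ofFinrankEq _ _ (by simp)
  let Φ : Euc m →ₗ[ℝ] Euc (r + s) := e.toLinearMap ∘ₗ Φ₀
  have hcv : Convex ℝ K := by
    rw [hK]
    intro x hx y hy a a' ha ha' haa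
    refine ⟨fun j => ?_, ?_⟩
    · have e1 : A j (a • x + a' • y) + b j = a • (A j x + b j) + a' • (A j y + b j) := by
        rw [map_add, map_smul, map_smul, smul_add, smul_add]
        have : a • b j + a' • b j = b j := by rw [← add_smul, haa, one_smul]
        calc a • A j x + a' • A j y + b j = a • A j x + a' • A j y + (a • b j + a' • b j) := by
              rw [this]
          _ = _ := by abel
      rw [e1, inner_add_right, inner_smul_right, inner_smul_right]
      refine (norm_add_le _ _).trans ?_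
      rw [norm_smul, norm_smul, Real.norm_of_nonneg ha, Real.norm_of_nonneg ha']
      have h3 := mul_le_mul_of_nonneg_left (hx.1 j) ha
      have h4 := mul_le_mul_of_nonneg_left (hy.1 j) ha'
      have h5 : a * d j + a' * d j = d j := by rw [← add_mul, haa, one_mul]
      linarith
    · rw [map_add, map_smul, map_smul]
      exact hD hx.2 hy.2 ha ha' haa
  refine ⟨hc, hcv, Φ, fun x₀ hx₀ => ?_⟩
  rw [hK] at hx₀
  refine few_pinched (S := fun j x => ‖A j x + b j‖ ^ 2) (e := fun j => (⟪c j, x₀⟫_ℝ + d j) ^ 2)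
    Φ (Φ x₀) one_pos (fun j => sq_pinched _ _) ?_
  ext x
  have hval : ∀ x, Φ x = Φ x₀ → (∀ j, ⟪c j, x⟫_ℝ = ⟪c j, x₀⟫_ℝ) ∧ U x = U x₀ := by
    intro x hx
    have h1 : Φ₀ x = Φ₀ x₀ := e.injective hx
    exact ⟨fun j => congrFun (congrArg Prod.fst h1) j, congrArg Prod.snd h1⟩
  constructor
  · rintro ⟨hx, hxΦ⟩
    obtain ⟨h1, h2⟩ := hval x hxΦ
    rw [hK] at hx
    refine ⟨fun j => ?_, hxΦ⟩
    have h3 := hx.1 j
    rw [h1 j] at h3
    exact pow_le_pow_left₀ (norm_nonneg _) h3 2
  · rintro ⟨hx, hxΦ⟩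
    obtain ⟨h1, h2⟩ := hval x hxΦ
    refine ⟨?_, hxΦ⟩
    rw [hK]
    refine ⟨fun j => ?_, ?_⟩
    · have h3 : ‖A j x + b j‖ ^ 2 ≤ (⟪c j, x₀⟫_ℝ + d j) ^ 2 := hx j
      rw [h1 j]
      exact le_of_sq_le_sq h3 ((norm_nonneg _).trans (hx₀.1 j))
    · rw [h2]
      exact hx₀.2

/-- **Second-order cone representations.** Example: the images, under arbitrary affine maps `T`, of
compact sets defined by `r` second-order cone constraints and an arbitrary convex constraint on the
values of `s` linear functionals. The constant depends only on `r` and `s`. -/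
theorem representable (r s : ℕ) : ∃ C : ℝ, 0 < C ∧ ∀ (m n : ℕ) (k : Fin r → ℕ)
    (A : ∀ j, Euc m →ₗ[ℝ] Euc (k j)) (b : ∀ j, Euc (k j)) (c : Fin r → Euc m) (d : Fin r → ℝ)
    (U : Euc m →ₗ[ℝ] Euc s) (D : Set (Euc s)) (K : Set (Euc m)) (T : Euc m →ᵃ[ℝ] Euc n), 1 ≤ n →
    Convex ℝ D → K = {x | (∀ j, ‖A j x + b j‖ ≤ ⟪c j, x⟫_ℝ + d j) ∧ U x ∈ D} → IsCompact K →
    (interior (T '' K)).Nonempty → (∀ x ∈ T '' K, -x ∈ T '' K) →
    HyperplaneBound C (interior (T '' K)) := by
  obtain ⟨C, hC, H⟩ := result 1 (r + (r + s)) (r + s) one_pos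
  exact ⟨C, hC, fun m n k A b c d U D K T hn hD hK hc hi hs =>
    H m n K T hn (cones k A b c d U hD hK hc) hi hs⟩

/-- linear coordinates of `ℝ^m × ℝ^r` -/
noncomputable def pr (m r : ℕ) : (Euc m × Euc r) ≃ₗ[ℝ] Euc (m + r) :=
  LinearEquiv.ofFinrankEq _ _ (by simp)

/-- Example: the sets `{T x | N(‖B_1 x‖, …, ‖B_r x‖) ≤ 1}`, with arbitrary linear maps `B_j`, `T` and a
monotone norm (or seminorm) `N` of `ℝ^r`; these are the unit balls of all quotients of subspaces of
`N`-sums (for example, `ℓ_p` sums, `1 ≤ p ≤ ∞`) of `r` Hilbert spaces. The constant depends only on `r`. -/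
theorem sub_quotients (r : ℕ) : ∃ C : ℝ, 0 < C ∧ ∀ (m n : ℕ) (k : Fin r → ℕ)
    (B : ∀ j, Euc m →ₗ[ℝ] Euc (k j)) (N : Seminorm ℝ (Fin r → ℝ)) (T : Euc m →ₗ[ℝ] Euc n), 1 ≤ n →
    (∀ s t : Fin r → ℝ, (∀ j, 0 ≤ s j) → (∀ j, s j ≤ t j) → N s ≤ N t) →
    Bornology.IsBounded {x : Euc m | N (fun j => ‖B j x‖) ≤ 1} → Function.Surjective T →
    HyperplaneBound C (interior (T '' {x : Euc m | N (fun j => ‖B j x‖) ≤ 1})) := by
  classical
  obtain ⟨C, hC, H⟩ := representable r r
  refine ⟨C, hC, fun m n k B N T hn hN hb hT => ?_⟩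
  -- a bound for the parameters
  obtain ⟨R, hR⟩ := hb.exists_norm_le
  obtain ⟨M, hM, hMb⟩ : ∃ M : ℝ, 0 < M ∧ ∀ x : Euc m, N (fun j => ‖B j x‖) ≤ 1 →
      ∀ j, ‖B j x‖ ≤ M := by
    refine ⟨1 + ∑ j, ‖LinearMap.toContinuousLinearMap (B j)‖ * |R|, by positivity,
      fun x hx j => ?_⟩
    have h1 := (LinearMap.toContinuousLinearMap (B j)).le_opNorm x
    have h2 : ‖x‖ ≤ |R| := (hR x hx).trans (le_abs_self R)
    have h3 : ‖LinearMap.toContinuousLinearMap (B j)‖ * |R| ≤
        ∑ j, ‖LinearMap.toContinuousLinearMap (B j)‖ * |R| :=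
      Finset.single_le_sum (f := fun j => ‖LinearMap.toContinuousLinearMap (B j)‖ * |R|)
        (fun i _ => by positivity) (Finset.mem_univ j)
    calc ‖B j x‖ ≤ ‖LinearMap.toContinuousLinearMap (B j)‖ * ‖x‖ := h1
      _ ≤ ‖LinearMap.toContinuousLinearMap (B j)‖ * |R| := by gcongr
      _ ≤ 1 + ∑ j, ‖LinearMap.toContinuousLinearMap (B j)‖ * |R| := by linarith
  have hNc : Continuous N := N.convexOn.locallyLipschitz.continuous
  have hBc : ∀ j, Continuous (B j) := fun j => (B j).continuous_of_finiteDimensional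
  -- the body over the parameters
  let px : Euc (m + r) →ₗ[ℝ] Euc m := (LinearMap.fst ℝ (Euc m) (Euc r)) ∘ₗ (pr m r).symm.toLinearMap
  let pt : Euc (m + r) →ₗ[ℝ] Euc r := (LinearMap.snd ℝ (Euc m) (Euc r)) ∘ₗ (pr m r).symm.toLinearMap
  have hpx : ∀ x t, px (pr m r (x, t)) = x := fun x t => by
    change ((pr m r).symm (pr m r (x, t))).1 = x
    rw [LinearEquiv.symm_apply_apply]
  have hpt : ∀ x t, pt (pr m r (x, t)) = t := fun x t => by
    change ((pr m r).symm (pr m r (x, t))).2 = t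
    rw [LinearEquiv.symm_apply_apply]
  have hpxc : Continuous px := px.continuous_of_finiteDimensional
  have hptc : Continuous pt := pt.continuous_of_finiteDimensional
  have hc : ∀ j, ∃ c : Euc (m + r), ∀ z, ⟪c, z⟫_ℝ = pt z j := fun j =>
    ⟨(InnerProductSpace.toDual ℝ (Euc (m + r))).symm
      (LinearMap.toContinuousLinearMap ((EuclideanSpace.proj j).toLinearMap ∘ₗ pt)), fun z => by
        rw [InnerProductSpace.toDual_symm_apply]
        rfl⟩
  choose c hc using hc
  obtain ⟨D, hD⟩ : ∃ D : Set (Euc r), D = {t | N (fun j => t j) ≤ 1 ∧ ∀ j, t j ≤ M} := ⟨_, rfl⟩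
  obtain ⟨K, hK⟩ : ∃ K : Set (Euc (m + r)),
      K = {z | (∀ j, ‖(B j ∘ₗ px) z + 0‖ ≤ ⟪c j, z⟫_ℝ + 0) ∧ pt z ∈ D} := ⟨_, rfl⟩
  have hmem : ∀ z, z ∈ K ↔ (∀ j, ‖B j (px z)‖ ≤ pt z j) ∧ N (fun j => pt z j) ≤ 1 ∧
      ∀ j, pt z j ≤ M := by
    intro z
    rw [hK, hD]
    simp only [mem_ofPred_eq, add_zero, hc, LinearMap.comp_apply]
  have hDv : Convex ℝ D := by
    rw [hD]
    intro x hx y hy a b ha hb' hab
    refine ⟨?_, fun j => ?_⟩
    · have e2 : (fun j => (a • x + b • y) j) = a • (fun j => x j) + b • fun j => y j := by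
        funext j
        simp
      rw [e2]
      refine (map_add_le_add N _ _).trans ?_
      rw [map_smul_eq_mul, map_smul_eq_mul, Real.norm_of_nonneg ha, Real.norm_of_nonneg hb']
      have h3 := mul_le_mul_of_nonneg_left hx.1 ha
      have h4 := mul_le_mul_of_nonneg_left hy.1 hb'
      linarith
    · have h3 := mul_le_mul_of_nonneg_left (hx.2 j) ha
      have h4 := mul_le_mul_of_nonneg_left (hy.2 j) hb'
      have h5 : a * M + b * M = M := by rw [← add_mul, hab, one_mul]
      change a * x j + b * y j ≤ M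
      linarith
  have hKc : IsCompact K := by
    refine Metric.isCompact_of_isClosed_isBounded ?_ ?_
    · have e1 : K = (⋂ j, {z | ‖B j (px z)‖ ≤ pt z j}) ∩
          ({z | N (fun j => pt z j) ≤ 1} ∩ ⋂ j, {z | pt z j ≤ M}) := by
        ext z
        rw [hmem]
        simp only [mem_inter_iff, mem_iInter, mem_ofPred_eq]
      have hj : ∀ j, Continuous fun z : Euc (m + r) => pt z j := fun j => by fun_prop
      have h1 : ∀ j, Continuous fun z : Euc (m + r) => ‖B j (px z)‖ := fun j =>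
        ((hBc j).comp hpxc).norm
      rw [e1]
      exact (isClosed_iInter fun j => isClosed_le (h1 j) (hj j)).inter
        ((isClosed_le (hNc.comp (continuous_pi hj)) continuous_const).inter
          (isClosed_iInter fun j => isClosed_le (hj j) continuous_const))
    · have h1 : K ⊆ (pr m r) '' (Metric.closedBall 0 (max R (Real.sqrt (r * M ^ 2)))) := by
        intro z hz
        have hz' := (hmem z).1 hz
        refine ⟨(pr m r).symm z, ?_, LinearEquiv.apply_symm_apply _ _⟩
        rw [mem_closedBall_zero_iff, Prod.norm_def]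
        refine max_le_max (hR _ ?_) ?_
        · exact (hN _ _ (fun j => norm_nonneg _) hz'.1).trans hz'.2.1
        · rw [EuclideanSpace.norm_eq]
          refine Real.sqrt_le_sqrt ?_
          calc ∑ i, ‖((pr m r).symm z).2 i‖ ^ 2 ≤ ∑ _i : Fin r, M ^ 2 := by
                refine Finset.sum_le_sum fun i _ => ?_
                have h3 : 0 ≤ pt z i := (norm_nonneg _).trans (hz'.1 i)
                have h4 := hz'.2.2 i
                have h5 : ‖((pr m r).symm z).2 i‖ = pt z i := by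
                  change ‖pt z i‖ = pt z i
                  rw [Real.norm_eq_abs, abs_of_nonneg h3]
                rw [h5]
                gcongr
            _ = r * M ^ 2 := by simp
      have hψ : Continuous (pr m r) := (pr m r).toLinearMap.continuous_of_finiteDimensional
      exact (((isCompact_closedBall _ _).image hψ).isBounded).subset h1
  have himg : (T ∘ₗ px) '' K = T '' {x : Euc m | N (fun j => ‖B j x‖) ≤ 1} := by
    ext y
    constructor
    · rintro ⟨z, hz, rfl⟩
      have hz' := (hmem z).1 hz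
      exact ⟨px z, (hN _ _ (fun j => norm_nonneg _) hz'.1).trans hz'.2.1, rfl⟩
    · rintro ⟨x, hx, rfl⟩
      refine ⟨pr m r (x, WithLp.toLp 2 fun j => ‖B j x‖), ?_, ?_⟩
      · rw [hmem, hpx, hpt]
        exact ⟨fun j => le_rfl, hx, hMb x hx⟩
      · rw [LinearMap.comp_apply, hpx]
  have hint : (interior (T '' {x : Euc m | N (fun j => ‖B j x‖) ≤ 1})).Nonempty := by
    have h1 : IsOpen {x : Euc m | N (fun j => ‖B j x‖) < 1} :=
      isOpen_lt (hNc.comp (continuous_pi fun j => (hBc j).norm)) continuous_const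
    have ho : IsOpenMap T := (LinearMap.toContinuousLinearMap T).isOpenMap hT
    have hsub : {x : Euc m | N (fun j => ‖B j x‖) < 1} ⊆
        {x : Euc m | N (fun j => ‖B j x‖) ≤ 1} := by
      intro x hx
      have hx' : N (fun j => ‖B j x‖) < 1 := hx
      exact hx'.le
    have h2 : (fun j => ‖B j (0 : Euc m)‖) = 0 := by
      funext j
      rw [map_zero, norm_zero]
      rfl
    have h3 : (0 : Euc m) ∈ {x : Euc m | N (fun j => ‖B j x‖) < 1} := by
      change N (fun j => ‖B j (0 : Euc m)‖) < 1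
      rw [h2, map_zero]
      exact one_pos
    exact ⟨T 0, interior_maximal (image_mono hsub) (ho _ h1) ⟨0, h3, rfl⟩⟩
  have e1 : (T ∘ₗ px).toAffineMap '' K = (T ∘ₗ px) '' K := rfl
  have s1 : (interior ((T ∘ₗ px).toAffineMap '' K)).Nonempty := by rwa [e1, himg]
  have s2 : ∀ x ∈ (T ∘ₗ px).toAffineMap '' K, -x ∈ (T ∘ₗ px).toAffineMap '' K := by
    rw [e1, himg]
    rintro _ ⟨x, hx, rfl⟩
    refine ⟨-x, ?_, map_neg T x⟩
    have hx' : N (fun j => ‖B j x‖) ≤ 1 := hx
    change N (fun j => ‖B j (-x)‖) ≤ 1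
    simpa only [map_neg, norm_neg] using hx'
  have hfin := H (m + r) n k (fun j => B j ∘ₗ px) (fun j => (0 : Euc (k j))) c (fun _ => (0 : ℝ))
    pt D K (T ∘ₗ px).toAffineMap hn hDv hK hKc s1 s2
  rwa [e1, himg] at hfin

/-- **Sums of ellipsoids.** Example: the sets `{∑_j A_j z_j | N(‖z_1‖, …, ‖z_r‖) ≤ 1}`, with linear maps
`A_j : ℝ^{k_j} → ℝⁿ` and a monotone norm `N` of `ℝ^r`. For the maximum norm this is the Minkowski sum of
the `r` ellipsoids `A_j(B_2)`, for the `ℓ_1` norm the convex hull of their union, for `ℓ_q` norms their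
sums in the sense of Firey. The constant depends only on `r`. -/
theorem ellipsoid_sums (r : ℕ) : ∃ C : ℝ, 0 < C ∧ ∀ (n : ℕ) (k : Fin r → ℕ)
    (A : ∀ j, Euc (k j) →ₗ[ℝ] Euc n) (N : Seminorm ℝ (Fin r → ℝ)), 1 ≤ n →
    (∀ s t : Fin r → ℝ, (∀ j, 0 ≤ s j) → (∀ j, s j ≤ t j) → N s ≤ N t) →
    Bornology.IsBounded {t : Fin r → ℝ | N t ≤ 1} →
    Function.Surjective (fun z : ∀ j, Euc (k j) => ∑ j, A j (z j)) →
    HyperplaneBound C (interior {y | ∃ z : ∀ j, Euc (k j), N (fun j => ‖z j‖) ≤ 1 ∧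
      ∑ j, A j (z j) = y}) := by
  obtain ⟨C, hC, H⟩ := sub_quotients r
  refine ⟨C, hC, fun n k A N hn hN hb hA => ?_⟩
  let F : Type := ∀ j, Euc (k j)
  let e : F ≃ₗ[ℝ] Euc (Module.finrank ℝ F) := LinearEquiv.ofFinrankEq _ _ (by simp)
  let B : ∀ j, Euc (Module.finrank ℝ F) →ₗ[ℝ] Euc (k j) := fun j =>
    (LinearMap.proj j) ∘ₗ e.symm.toLinearMap
  have hB : ∀ j x, B j x = e.symm x j := fun j x => rfl
  let T : Euc (Module.finrank ℝ F) →ₗ[ℝ] Euc n := ∑ j, A j ∘ₗ B j
  have hT : ∀ x, T x = ∑ j, A j (e.symm x j) := fun x => by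
    rw [LinearMap.sum_apply]
    rfl
  have hTs : Function.Surjective T := by
    intro y
    obtain ⟨z, hz⟩ := hA y
    refine ⟨e z, ?_⟩
    rw [hT, LinearEquiv.symm_apply_apply]
    exact hz
  have hbd : Bornology.IsBounded {x | N (fun j => ‖B j x‖) ≤ 1} := by
    obtain ⟨R, hR⟩ := hb.exists_norm_le
    have h1 : {x | N (fun j => ‖B j x‖) ≤ 1} ⊆ e '' (Metric.closedBall (0 : F) (max R 0)) := by
      intro x hx
      refine ⟨e.symm x, ?_, LinearEquiv.apply_symm_apply _ _⟩
      rw [mem_closedBall_zero_iff, pi_norm_le_iff_of_nonneg (le_max_right _ _)]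
      intro j
      have h2 := hR _ hx
      have h3 := norm_le_pi_norm (fun j => ‖B j x‖) j
      rw [norm_norm, hB] at h3
      exact (h3.trans h2).trans (le_max_left _ _)
    have hec : Continuous e := e.toLinearMap.continuous_of_finiteDimensional
    exact ((isCompact_closedBall _ _).image hec).isBounded.subset h1
  have h1 := H _ n k B N T hn hN hbd hTs
  have h2 : T '' {x | N (fun j => ‖B j x‖) ≤ 1} = {y | ∃ z : ∀ j, Euc (k j),
      N (fun j => ‖z j‖) ≤ 1 ∧ ∑ j, A j (z j) = y} := by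
    ext y
    constructor
    · rintro ⟨x, hx, rfl⟩
      exact ⟨e.symm x, hx, (hT x).symm⟩
    · rintro ⟨z, hz, rfl⟩
      refine ⟨e z, ?_, ?_⟩
      · change N (fun j => ‖B j (e z)‖) ≤ 1
        simpa only [hB, LinearEquiv.symm_apply_apply] using hz
      · rw [hT, LinearEquiv.symm_apply_apply]
  rwa [h2] at h1

/-- **Matrices.** Example: the sets `{T x | ‖∑_j c_j L_j x‖ ≤ |c| for all c ∈ ℝ^q}`: these are the unit
balls of all quotients of subspaces of the space of `k × q` matrices with the operator norm (`L_j x` is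
the `j`-th column). The constant depends only on `q`. -/
theorem operator_norm (q : ℕ) : ∃ C : ℝ, 0 < C ∧ ∀ (m n k : ℕ) (L : Fin q → Euc m →ₗ[ℝ] Euc k)
    (T : Euc m →ₗ[ℝ] Euc n), 1 ≤ n → Function.Surjective T →
    Bornology.IsBounded {x : Euc m | ∀ c : Fin q → ℝ, ‖∑ j, c j • L j x‖ ^ 2 ≤ ∑ j, c j ^ 2} →
    HyperplaneBound C
      (interior (T '' {x : Euc m | ∀ c : Fin q → ℝ, ‖∑ j, c j • L j x‖ ^ 2 ≤ ∑ j, c j ^ 2})) := by
  obtain ⟨C, hC, H⟩ := result 1 (Module.finrank ℝ (Fin q → Fin q → ℝ)) 0 one_pos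
  refine ⟨C, hC, fun m n k L T hn hT hb => ?_⟩
  have hK : Constrained 1 (Module.finrank ℝ (Fin q → Fin q → ℝ))
      {x : Euc m | ∀ c : Fin q → ℝ, ‖∑ j, c j • L j x‖ ^ 2 ≤ ∑ j, c j ^ 2} := by
    let b : Euc m →ₗ[ℝ] Euc m →ₗ[ℝ] (Fin q → Fin q → ℝ) :=
      LinearMap.mk₂ ℝ (fun x y i j => ⟪L i x, L j y⟫_ℝ)
        (fun x x' y => by funext i j; simp [inner_add_left])
        (fun a x y => by funext i j; simp [real_inner_smul_left])
        (fun x y y' => by funext i j; simp [inner_add_right])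
        (fun a x y => by funext i j; simp [real_inner_smul_right])
    let Q : QuadraticMap ℝ (Euc m) (Fin q → Fin q → ℝ) := LinearMap.BilinMap.toQuadraticMap b
    have hQ : ∀ x (c : Fin q → ℝ), ∑ i, ∑ j, c i * c j * Q x i j = ‖∑ j, c j • L j x‖ ^ 2 := by
      intro x c
      rw [← real_inner_self_eq_norm_sq, sum_inner]
      refine Finset.sum_congr rfl fun i _ => ?_
      rw [inner_sum]
      refine Finset.sum_congr rfl fun j _ => ?_
      rw [real_inner_smul_left, real_inner_smul_right]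
      change c i * c j * ⟪L i x, L j x⟫_ℝ = _
      ring
    refine quadratic_maps Q 0 0
      (D := {M | ∀ c : Fin q → ℝ, ∑ i, ∑ j, c i * c j * M i j ≤ ∑ j, c j ^ 2}) ?_ ?_ ?_ ?_
    · have e1 : {M : Fin q → Fin q → ℝ | ∀ c : Fin q → ℝ,
          ∑ i, ∑ j, c i * c j * M i j ≤ ∑ j, c j ^ 2} = ⋂ c : Fin q → ℝ,
          {M : Fin q → Fin q → ℝ | ∑ i, ∑ j, c i * c j * M i j ≤ ∑ j, c j ^ 2} := by
        ext M
        simp
      rw [e1]
      exact isClosed_iInter fun c => isClosed_le (by fun_prop) continuous_const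
    · intro M hM M' hM' a a' ha ha' haa c
      have h1 := mul_le_mul_of_nonneg_left (hM c) ha
      have h2 := mul_le_mul_of_nonneg_left (hM' c) ha'
      have e1 : ∑ i, ∑ j, c i * c j * (a • M + a' • M') i j =
          a * ∑ i, ∑ j, c i * c j * M i j + a' * ∑ i, ∑ j, c i * c j * M' i j := by
        simp only [Pi.add_apply, Pi.smul_apply, smul_eq_mul, Finset.mul_sum,
          ← Finset.sum_add_distrib]
        refine Finset.sum_congr rfl fun i _ => Finset.sum_congr rfl fun j _ => ?_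
        ring
      rw [e1]
      have e2 : a * ∑ j, c j ^ 2 + a' * ∑ j, c j ^ 2 = ∑ j, c j ^ 2 := by
        rw [← add_mul, haa, one_mul]
      linarith
    · intro x M hM c
      have h1 := hM c
      have e1 : ∑ i, ∑ j, c i * c j * (M - Q x) i j =
          ∑ i, ∑ j, c i * c j * M i j - ‖∑ j, c j • L j x‖ ^ 2 := by
        rw [← hQ]
        simp only [Pi.sub_apply, mul_sub, Finset.sum_sub_distrib]
      rw [e1]
      have := sq_nonneg ‖∑ j, c j • L j x‖
      linarith
    · ext x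
      simp only [LinearMap.zero_apply, add_zero]
      refine forall_congr' fun c => ?_
      rw [hQ]
  have e1 : T.toAffineMap '' {x : Euc m | ∀ c : Fin q → ℝ, ‖∑ j, c j • L j x‖ ^ 2 ≤ ∑ j, c j ^ 2} =
      T '' {x : Euc m | ∀ c : Fin q → ℝ, ‖∑ j, c j • L j x‖ ^ 2 ≤ ∑ j, c j ^ 2} := rfl
  have hint : (interior (T '' {x : Euc m | ∀ c : Fin q → ℝ,
      ‖∑ j, c j • L j x‖ ^ 2 ≤ ∑ j, c j ^ 2})).Nonempty := by
    have hL : ∀ j, Continuous (L j) := fun j => (L j).continuous_of_finiteDimensional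
    have h1 : IsOpen {x : Euc m | ∑ j, ‖L j x‖ ^ 2 < 1} := isOpen_lt (by fun_prop) continuous_const
    have ho : IsOpenMap T := (LinearMap.toContinuousLinearMap T).isOpenMap hT
    have hsub : {x : Euc m | ∑ j, ‖L j x‖ ^ 2 < 1} ⊆
        {x : Euc m | ∀ c : Fin q → ℝ, ‖∑ j, c j • L j x‖ ^ 2 ≤ ∑ j, c j ^ 2} := by
      intro x hx c
      have h1 : ‖∑ j, c j • L j x‖ ≤ ∑ j, |c j| * ‖L j x‖ := by
        refine (norm_sum_le _ _).trans (Finset.sum_le_sum fun j _ => ?_)
        rw [norm_smul, Real.norm_eq_abs]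
      have h2 := Finset.sum_mul_sq_le_sq_mul_sq Finset.univ (fun j => |c j|) fun j => ‖L j x‖
      have h3 : ‖∑ j, c j • L j x‖ ^ 2 ≤ (∑ j, |c j| * ‖L j x‖) ^ 2 :=
        pow_le_pow_left₀ (norm_nonneg _) h1 2
      simp only [sq_abs] at h2
      have h4 : 0 ≤ ∑ j, c j ^ 2 := Finset.sum_nonneg fun j _ => sq_nonneg _
      have h5 : ∑ j, ‖L j x‖ ^ 2 ≤ 1 := le_of_lt hx
      calc ‖∑ j, c j • L j x‖ ^ 2 ≤ (∑ j, c j ^ 2) * ∑ j, ‖L j x‖ ^ 2 := h3.trans h2
        _ ≤ (∑ j, c j ^ 2) * 1 := by gcongr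
        _ = _ := mul_one _
    have h3 : (0 : Euc m) ∈ {x : Euc m | ∑ j, ‖L j x‖ ^ 2 < 1} := by
      change ∑ j, ‖L j (0 : Euc m)‖ ^ 2 < 1
      simp
    exact ⟨T 0, interior_maximal (image_mono hsub) (ho _ h1) ⟨0, h3, rfl⟩⟩
  have h1 := H m n _ T.toAffineMap hn (hK.sliced one_pos hb) (by rw [e1]; exact hint) (by
    rw [e1]
    rintro _ ⟨x, hx, rfl⟩
    refine ⟨-x, fun c => ?_, map_neg T x⟩
    have h1 := hx c
    have e2 : ∑ j, c j • L j (-x) = -∑ j, c j • L j x := by
      rw [← Finset.sum_neg_distrib]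
      refine Finset.sum_congr rfl fun j _ => ?_
      rw [map_neg, smul_neg]
    rw [e2, norm_neg]
    exact h1)
  rwa [e1] at h1

end Pool.Agent.Results.MP_dc1397_gt.ConeRepresentationsH69
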