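import Pool.Agent.V7H69.IK.Apx2
import Pool.Agent.V7H69.IK.Ell

/-!
# The hyperplane conjecture of KLS: isomorphic forms for arbitrary symmetric bodies

Let `K ⊂ ℝⁿ` be an arbitrary symmetric convex body. The results are about bodies near `K`. In the last part
of (1), in (2) and in (4) the body `K` satisfies `∫_K |x|² ≤ ℓ² n |K|^(1+2/n)` (`SecondMoment`); for `K` in
isotropic position this is `L_K ≤ ℓ`, where `L_K` is the isotropic constant. All constants `C` are absolute.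

* (1) (`ellipsoids`) For all `1 ≤ m < n` there is an ellipsoid `ℰ` such that every linear image of `K ∩ ℰ`
  satisfies `HyperplaneBound (C √(n/m))`; here `|K ∩ ℰ'| ≤ 4 |√2 ℰ'|^{m/n} |K ∩ ℰ|^{1-m/n}` for all
  ellipsoids `ℰ'`, and `|K| ≤ 64 (10 ℓ)^{2m} |K ∩ ℰ|` if `2m ≤ n` and a linear image of `K` of the same
  volume has the property `SecondMoment ℓ`. So, with `m = c n`, every symmetric convex body `K` contains a
  symmetric convex body `K ∩ ℰ` with almost the same volume radius, `|K ∩ ℰ|^{1/n} ≥ (1-ε) |K|^{1/n}`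
  (`n` large), for which the hyperplane conjecture is true in all positions, with the constant
  `C (log (10 ℓ) / ε)^{1/2}`; and `ℓ` can be an absolute constant by the theorem `L_K ≤ C` of Klartag and
  Lehec (this theorem is not used or formalised here). This is an isomorphic form of the conjecture as the
  theorem of Klartag (2006) is one for the slicing problem.
* (2) (`approximation`) For all `0 < ε ≤ 1`, `s ≥ 1` there is a symmetric convex body `B ⊆ K` with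
  `|K ∩ (1+ε)B| ≥ (1 - e^{-s}) |K|`, which satisfies `HyperplaneBound (C ℓ s / √ε)`.
* (3) (`volume_ratio`) If `K ⊆ B_R` and `|B_R| ≤ Dⁿ |K|`, then for all `0 < ε ≤ 1` there is a symmetric
  convex body `B` with `B ⊆ K ⊆ (1+ε)B`, which satisfies `HyperplaneBound (C D / √ε)`.
* (4) (`truncations`) If `|K ∩ B_R| ≤ e^{-m} |K|`, `2 ≤ m ≤ n`, then `K ∩ B_R` satisfies
  `HyperplaneBound (C ℓ √(n/m))`. So all truncations `K ∩ B_R` with an exponentially small part of the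
  volume, `m = c n`, satisfy Q1 with the constant `C ℓ / √c`.

Part (4) is near the theorem of Bobkov (2007) on measures with `|x|` concentrated in a thin shell, and
part (3) is near the theorem of Bobkov and Ledoux (2000) on uniformly convex bodies. The last theorem of the
file (`level_sets`, not part of `result`) is about the sets `K ∩ {V < t}`, `V` a uniformly convex function,
and is the source of (3).

Method. Let `Ω = K ∩ {Φ ≤ 1}`, where `Φ ≥ 0` is even and `Φ - a |x|²` is convex. (i) If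
`|K ∩ {Φ ≤ 1 - s}|` decays like `e^{-ps} |Ω|`, then the weight `w = exp (b (1 - Φ)) ≥ 1`, `b = p/4`, has
`∫_Ω w ≤ 33 |Ω|`. By the inequality of Brascamp and Lieb its spectral gap is at least `2ab`, so the
variance on `Ω` of a Lipschitz function is at most `33 Lip² / (2ab)`, and this is a concentration
property. (ii) The largest variance of a linear functional on `Ω` is at least `∫_Ω |x|² / (n |Ω|)`. This
gives the isoperimetric inequality (`GibbsLevelSets`) with the factor `1 / √(p a v)`. (iii) In (1) the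
ellipsoid `{|A x| < 1}` is a near-maximiser of `|det A|^{m/n} ∫_K (1 - |A x|²)_+ dx`; maximality among the
multiples of `A` gives the decay, and maximality among all `A` gives lower bounds for the variances of all
linear functionals on `A (K ∩ ℰ)`. In (3), `Φ = g² + (ε/R²) |x|²` with the gauge `g` of `K`; here the decay
rate is `n/2` by homogeneity; (2) follows from (3) for `K ∩ B_R` with a suitable `R` and Borell's lemma. In (4) the decay
follows from the log-concavity of `r ↦ |K ∩ B_r|`, since the volume grows from `e^{-m} |K|` at `R` to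
`|K| / 2` at a radius of the order `ℓ √n |K|^{1/n}`, while `R` is at least of the order
`√n (e^{-m} |K|)^{1/n}`.
-/

set_option autoImplicit false

namespace Pool.Agent.Results.MP_dc1397_gt.IsomorphicFormsH69

open MeasureTheory Set
open scoped ENNReal InnerProductSpace Pointwise

/-- Euclidean space of dimension `n` -/
abbrev Euc (n : ℕ) : Type := EuclideanSpace ℝ (Fin n)

/-- the Lebesgue measure of a Euclidean space -/
noncomputable def lebesgue (F : Type) [NormedAddCommGroup F] [InnerProductSpace ℝ F]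
    [FiniteDimensional ℝ F] [MeasurableSpace F] [BorelSpace F] : Measure F := volume

/-- the Lebesgue measure (of the Euclidean space `W`) of the section `Ω ∩ W` by a subspace `W` -/
noncomputable def areaIn {F : Type} [NormedAddCommGroup F] [InnerProductSpace ℝ F]
    [FiniteDimensional ℝ F] [MeasurableSpace F] [BorelSpace F] (W : Submodule ℝ F) (Ω : Set F) :
    ℝ≥0∞ := lebesgue W {y : W | (y : F) ∈ Ω}

section defs

variable {κ : Type} [Fintype κ]

open Classical in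
/-- divergence of a vector field on `ℝ^κ` -/
noncomputable def divergence (X : EuclideanSpace ℝ κ → EuclideanSpace ℝ κ)
    (x : EuclideanSpace ℝ κ) : ℝ :=
  ∑ i, fderiv ℝ X x (EuclideanSpace.single i 1) i

/-- `C¹` vector fields with compact support in `Ω` and `‖X‖ ≤ 1` -/
structure Test (Ω : Set (EuclideanSpace ℝ κ)) (X : EuclideanSpace ℝ κ → EuclideanSpace ℝ κ) :
    Prop where
  diff : ContDiff ℝ 1 X
  comp : HasCompactSupport X
  sub : tsupport X ⊆ Ω
  le : ∀ x, ‖X x‖ ≤ 1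

/-- the (De Giorgi) perimeter `P(E; Ω)` of `E` relative to the open set `Ω` -/
noncomputable def perimeter (E Ω : Set (EuclideanSpace ℝ κ)) : ℝ≥0∞ :=
  ⨆ (X : EuclideanSpace ℝ κ → EuclideanSpace ℝ κ) (_ : Test Ω X),
    ENNReal.ofReal (∫ x in E, divergence X x)

/-- the area (Lebesgue measure in the hyperplane `a^⊥`) of the central section of `Ω` by `a^⊥` -/
noncomputable def sectionArea (Ω : Set (EuclideanSpace ℝ κ)) (a : EuclideanSpace ℝ κ) : ℝ≥0∞ :=
  areaIn (Submodule.span ℝ {a})ᗮ Ω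

/-- some central hyperplane section has area at most `C P(E; Ω)` for every measurable `E ⊆ Ω` with
`|E| = |Ω| / 2` -/
def HyperplaneBound (C : ℝ) (Ω : Set (EuclideanSpace ℝ κ)) : Prop :=
  ∃ a : EuclideanSpace ℝ κ, a ≠ 0 ∧ ∀ E : Set (EuclideanSpace ℝ κ), MeasurableSet E → E ⊆ Ω →
    volume E = volume Ω / 2 → sectionArea Ω a ≤ ENNReal.ofReal C * perimeter E Ω

/-- the perimeter is the one used in the proof -/
theorem perimeter_eq (E Ω : Set (EuclideanSpace ℝ κ)) :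
    Pool.Agent.Results.MP_dc1397_gt.GibbsLevelSets.perimeter E Ω = perimeter E Ω := by
  unfold perimeter Pool.Agent.Results.MP_dc1397_gt.GibbsLevelSets.perimeter
  refine iSup_congr fun X => ?_
  exact iSup_congr_Prop ⟨fun h => ⟨h.diff, h.comp, h.sub, h.le⟩,
    fun h => ⟨h.diff, h.comp, h.sub, h.le⟩⟩ fun _ => rfl

theorem bound_of {C : ℝ} {Ω : Set (EuclideanSpace ℝ κ)}
    (h : Pool.Agent.Results.MP_dc1397_gt.GibbsLevelSets.HyperplaneBound C Ω) :
    HyperplaneBound C Ω := by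
  obtain ⟨a, ha, H⟩ := h
  refine ⟨a, ha, fun E h1 h2 h3 => ?_⟩
  rw [← perimeter_eq]
  exact H E h1 h2 h3

theorem HyperplaneBound.mono {C C' : ℝ} {Ω : Set (EuclideanSpace ℝ κ)} (h : C ≤ C')
    (H : HyperplaneBound C Ω) : HyperplaneBound C' Ω := by
  obtain ⟨a, ha, H⟩ := H
  refine ⟨a, ha, fun E h1 h2 h3 => (H E h1 h2 h3).trans ?_⟩
  gcongr

variable {n : ℕ}

/-- symmetric convex bodies, here open: `K = -K` is convex, open, bounded and nonempty -/
structure Body (K : Set (Euc n)) : Prop where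
  isOpen : IsOpen K
  convex : Convex ℝ K
  bounded : Bornology.IsBounded K
  nonempty : K.Nonempty
  symm : ∀ x ∈ K, -x ∈ K

/-- the volume of a set of finite volume -/
noncomputable def vol (A : Set (Euc n)) : ℝ := (volume A).toReal

/-- `∫_K |x|² ≤ ℓ² n |K|^(1+2/n)`; for bodies in isotropic position: the isotropic constant `L_K` is at
most `ℓ` -/
def SecondMoment (ℓ : ℝ) (K : Set (Euc n)) : Prop :=
  ∫ x in K, ‖x‖ ^ 2 ≤ ℓ ^ 2 * n * vol K ^ (1 + 2 / (n : ℝ))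

/-- the open centred ellipsoid `r A⁻¹(B_1) = {x | |A x| < r}` -/
def ellipsoid (A : Euc n ≃ₗ[ℝ] Euc n) (r : ℝ) : Set (Euc n) := {x | ‖A x‖ < r}

/-- (4) truncations of `K` by balls, with a small part of the volume -/
def TruncationBound (C : ℝ) (K : Set (Euc n)) : Prop :=
  ∀ ℓ m R : ℝ, 1 ≤ ℓ → SecondMoment ℓ K → 2 ≤ m → m ≤ n → 0 < R →
    vol (K ∩ Metric.ball 0 R) ≤ Real.exp (-m) * vol K →
    HyperplaneBound (C * ℓ * Real.sqrt (n / m)) (K ∩ Metric.ball 0 R)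

/-- (2) bodies which are near `K` up to a factor and a small part of the volume -/
def ApproximationBound (C : ℝ) (K : Set (Euc n)) : Prop :=
  ∀ ℓ ε s : ℝ, 1 ≤ ℓ → SecondMoment ℓ K → 0 < ε → ε ≤ 1 → 1 ≤ s →
    ∃ B : Set (Euc n), Body B ∧ B ⊆ K ∧ (1 - Real.exp (-s)) * vol K ≤ vol (K ∩ (1 + ε) • B) ∧
      HyperplaneBound (C * ℓ * s / Real.sqrt ε) B

/-- (3) bodies which are near `K` up to a factor, if `K` has bounded volume ratio -/
def VolumeRatioBound (C : ℝ) (K : Set (Euc n)) : Prop :=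
  ∀ D R ε : ℝ, 0 < D → 0 < R → 0 < ε → ε ≤ 1 → K ⊆ Metric.ball 0 R →
    vol (Metric.ball (0 : Euc n) R) ≤ D ^ n * vol K →
    ∃ B : Set (Euc n), Body B ∧ B ⊆ K ∧ K ⊆ (1 + ε) • B ∧
      HyperplaneBound (C * D / Real.sqrt ε) B

/-- `|K ∩ ℰ'| ≤ 4 |√2 ℰ'|^{m/n} |K ∩ ℰ|^{1-m/n}` for `ℰ = ellipsoid A 1` and all ellipsoids `ℰ'` -/
def LargeSection (m : ℝ) (K : Set (Euc n)) (A : Euc n ≃ₗ[ℝ] Euc n) : Prop :=
  ∀ B : Euc n ≃ₗ[ℝ] Euc n, vol (K ∩ ellipsoid B 1) ≤
    4 * (vol (ellipsoid B (Real.sqrt 2)) ^ (m / n) * vol (K ∩ ellipsoid A 1) ^ (1 - m / n))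

/-- `|K| ≤ 64 (10 ℓ)^{2m} |K ∩ ℰ|` for `ℰ = ellipsoid A 1`, if `ℓ ≥ 1` and `SecondMoment ℓ (B K)` for a
linear map `B` with determinant `±1` -/
def LargeVolume (m : ℝ) (K : Set (Euc n)) (A : Euc n ≃ₗ[ℝ] Euc n) : Prop :=
  ∀ (ℓ : ℝ) (B : Euc n ≃ₗ[ℝ] Euc n), 1 ≤ ℓ → |LinearMap.det (B : Euc n →ₗ[ℝ] Euc n)| = 1 →
    SecondMoment ℓ (B '' K) → vol K ≤ 64 * (10 * ℓ) ^ (2 * m) * vol (K ∩ ellipsoid A 1)

/-- (1) intersections of `K` with suitable ellipsoids -/
def EllipsoidBound (C : ℝ) (K : Set (Euc n)) : Prop :=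
  ∀ m : ℝ, 1 ≤ m → m < n → ∃ A : Euc n ≃ₗ[ℝ] Euc n,
    (∀ T : Euc n ≃ₗ[ℝ] Euc n,
      HyperplaneBound (C * Real.sqrt (n / m)) (T '' (K ∩ ellipsoid A 1))) ∧
    LargeSection m K A ∧ (2 * m ≤ n → LargeVolume m K A)

end defs

/-- **Truncations** with small volume of bodies in isotropic position -/
theorem truncations : ∃ C : ℝ, 0 < C ∧ ∀ (n : ℕ) (K : Set (Euc n)) (ℓ m R : ℝ), Body K → 1 ≤ ℓ →
    SecondMoment ℓ K → 2 ≤ m → m ≤ n → 0 < R →
    vol (K ∩ Metric.ball 0 R) ≤ Real.exp (-m) * vol K →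
    HyperplaneBound (C * ℓ * Real.sqrt (n / m)) (K ∩ Metric.ball 0 R) := by
  obtain ⟨C, hC, H⟩ := Pool.Agent.V7H69.IK.trunc_open
  exact ⟨C, hC, fun n K ℓ m R hK hℓ hS hm hmn hR h => bound_of
    (H ℓ m R hℓ hm hR n K hmn hK.isOpen hK.convex hK.bounded hK.nonempty hK.symm hS h)⟩

/-- **Approximation up to a factor and a small part of the volume** of bodies in isotropic position -/
theorem approximation : ∃ C : ℝ, 0 < C ∧ ∀ (n : ℕ) (K : Set (Euc n)) (ℓ ε s : ℝ), 1 ≤ n → Body K →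
    0 < ℓ → SecondMoment ℓ K → 0 < ε → ε ≤ 1 → 1 ≤ s →
    ∃ B : Set (Euc n), Body B ∧ B ⊆ K ∧ (1 - Real.exp (-s)) * vol K ≤ vol (K ∩ (1 + ε) • B) ∧
      HyperplaneBound (C * ℓ * s / Real.sqrt ε) B := by
  obtain ⟨C, hC, H⟩ := Pool.Agent.V7H69.IK.apx2
  refine ⟨C * 2, by positivity, fun n K ℓ ε s hn hK hℓ hS hε hε1 hs => ?_⟩
  have hη1 : Real.exp (-s) ≤ 1 / 2 := by
    rw [Real.exp_neg, one_div]
    refine inv_anti₀ two_pos ?_
    have := Real.add_one_le_exp s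
    linarith
  obtain ⟨B, h1, h2, h3, h4, h5, h6, h7⟩ := H ℓ ε (Real.exp (-s)) n K hℓ hε hε1
    (Real.exp_pos _) hη1 hn hK.isOpen hK.convex hK.bounded hK.nonempty hK.symm hS
  refine ⟨B, ⟨h1, h2, hK.bounded.subset h5, h3, h4⟩, h5, h6, (bound_of h7).mono ?_⟩
  rw [one_div, Real.log_inv, Real.log_exp, neg_neg]
  have h8 : C * ℓ * (1 + s) ≤ C * 2 * ℓ * s := by
    have h9 : 1 + s ≤ 2 * s := by linarith
    calc C * ℓ * (1 + s) ≤ C * ℓ * (2 * s) := mul_le_mul_of_nonneg_left h9 (by positivity)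
      _ = _ := by ring
  gcongr

/-- the volume of a ball -/
theorem vol_ball {n : ℕ} {R : ℝ} (hR : 0 < R) :
    vol (Metric.ball (0 : Euc n) R) = R ^ n * Pool.Agent.V7H69.IK.bv n := by
  unfold vol Pool.Agent.V7H69.IK.bv Measure.real
  rw [Measure.addHaar_ball_of_pos _ _ hR, ENNReal.toReal_mul, ENNReal.toReal_ofReal (by positivity),
    finrank_euclideanSpace_fin, Measure.addHaar_unitClosedBall_eq_addHaar_unitBall]

/-- **Approximation up to a factor** of bodies with bounded volume ratio -/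
theorem volume_ratio : ∃ C : ℝ, 0 < C ∧ ∀ (n : ℕ) (K : Set (Euc n)) (D R ε : ℝ), 1 ≤ n → Body K →
    0 < D → 0 < R → 0 < ε → ε ≤ 1 → K ⊆ Metric.ball 0 R →
    vol (Metric.ball (0 : Euc n) R) ≤ D ^ n * vol K →
    ∃ B : Set (Euc n), Body B ∧ B ⊆ K ∧ K ⊆ (1 + ε) • B ∧
      HyperplaneBound (C * D / Real.sqrt ε) B := by
  obtain ⟨C, hC, H⟩ := Pool.Agent.V7H69.IK.apx0
  refine ⟨C, hC, fun n K D R ε hn hK hD hR hε hε1 hKR hv => ?_⟩
  rw [vol_ball hR] at hv
  obtain ⟨B, h1, h2, h3, h4, h5, h6, h7⟩ := H D R ε n K hD hR hε hε1 hn hK.isOpen hK.convex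
    hK.nonempty hK.symm hKR hv
  exact ⟨B, ⟨h1, h2, hK.bounded.subset h5, h3, h4⟩, h5, h6, bound_of h7⟩

/-- linear maps with determinant `±1` preserve the volume -/
theorem pres {n : ℕ} (B : Euc n ≃ₗ[ℝ] Euc n)
    (hB : |LinearMap.det (B : Euc n →ₗ[ℝ] Euc n)| = 1) :
    MeasurePreserving B (volume : Measure (Euc n)) volume := by
  have hc : Continuous (B : Euc n →ₗ[ℝ] Euc n) := LinearMap.continuous_of_finiteDimensional _
  refine ⟨hc.measurable, ?_⟩
  have h0 : LinearMap.det (B : Euc n →ₗ[ℝ] Euc n) ≠ 0 := by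
    intro h
    rw [h, abs_zero] at hB
    norm_num at hB
  have h1 := Measure.map_linearMap_addHaar_eq_smul_addHaar (μ := (volume : Measure (Euc n))) h0
  rw [abs_inv, hB, inv_one, ENNReal.ofReal_one, one_smul] at h1
  exact h1

/-- change of variables in the second moment -/
theorem moment_image {n : ℕ} {ℓ : ℝ} {K : Set (Euc n)} (B : Euc n ≃ₗ[ℝ] Euc n)
    (hB : |LinearMap.det (B : Euc n →ₗ[ℝ] Euc n)| = 1) (h : SecondMoment ℓ (B '' K)) :
    ∫ x in K, ‖B x‖ ^ 2 ≤ ℓ ^ 2 * n * volume.real K ^ (1 + 2 / (n : ℝ)) := by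
  have hp := pres B hB
  have hc : Continuous (B : Euc n →ₗ[ℝ] Euc n) := LinearMap.continuous_of_finiteDimensional _
  have hc' : Continuous (B.symm : Euc n →ₗ[ℝ] Euc n) := LinearMap.continuous_of_finiteDimensional _
  have he : MeasurableEmbedding B :=
    (Homeomorph.mk B.toEquiv hc hc').measurableEmbedding
  have h1 := hp.setIntegral_image_emb he (fun x => ‖x‖ ^ 2) K
  have h2 : volume (B '' K) = volume K := by
    have h3 := Measure.addHaar_image_linearMap (volume : Measure (Euc n))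
      (B : Euc n →ₗ[ℝ] Euc n) K
    rw [hB, ENNReal.ofReal_one, one_mul] at h3
    exact h3
  unfold SecondMoment vol at h
  rw [h1, h2] at h
  exact h

/-- **Intersections with ellipsoids** of arbitrary bodies -/
theorem ellipsoids : ∃ C : ℝ, 0 < C ∧ ∀ (n : ℕ) (K : Set (Euc n)) (m : ℝ), Body K → 1 ≤ m → m < n →
    ∃ A : Euc n ≃ₗ[ℝ] Euc n,
    (∀ T : Euc n ≃ₗ[ℝ] Euc n, HyperplaneBound (C * Real.sqrt (n / m)) (T '' (K ∩ ellipsoid A 1))) ∧
    (∀ B : Euc n ≃ₗ[ℝ] Euc n, vol (K ∩ ellipsoid B 1) ≤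
      4 * (vol (ellipsoid B (Real.sqrt 2)) ^ (m / n) * vol (K ∩ ellipsoid A 1) ^ (1 - m / n))) ∧
    (∀ (ℓ : ℝ) (B : Euc n ≃ₗ[ℝ] Euc n), 1 ≤ ℓ → 2 * m ≤ n →
      |LinearMap.det (B : Euc n →ₗ[ℝ] Euc n)| = 1 → SecondMoment ℓ (B '' K) →
      vol K ≤ 64 * (10 * ℓ) ^ (2 * m) * vol (K ∩ ellipsoid A 1)) := by
  obtain ⟨C, hC, H⟩ := Pool.Agent.V7H69.IK.ell_open
  refine ⟨C, hC, fun n K m hK hm hmn => ?_⟩
  obtain ⟨A, h1, h2, h3⟩ := H m n K hm hmn hK.isOpen hK.convex hK.bounded hK.nonempty hK.symm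
  exact ⟨A, fun T => bound_of (h1 T), h2,
    fun ℓ B hℓ hm2 hB hS => h3 ℓ B hℓ hm2 hB (moment_image B hB hS)⟩

/-- **Isomorphic forms of the hyperplane conjecture.** There is a constant `C > 0` such that for all
`n ≥ 1` and all symmetric convex bodies `K ⊂ ℝⁿ`:

(1) for `1 ≤ m < n` there is an ellipsoid `ℰ` such that all linear images of `K ∩ ℰ` satisfy
`HyperplaneBound (C √(n/m))`, `|K ∩ ℰ'| ≤ 4 |√2 ℰ'|^{m/n} |K ∩ ℰ|^{1-m/n}` for all ellipsoids `ℰ'`, and
`|K| ≤ 64 (10 ℓ)^{2m} |K ∩ ℰ|` if `ℓ ≥ 1`, `2m ≤ n` and `∫_{BK} |x|² ≤ ℓ² n |K|^(1+2/n)` for a linear map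
`B` with determinant `±1`;

(2) if `∫_K |x|² ≤ ℓ² n |K|^(1+2/n)`, `ℓ ≥ 1`, then for `0 < ε ≤ 1`, `s ≥ 1` some symmetric convex
body `B ⊆ K` with `|K ∩ (1+ε)B| ≥ (1 - e^{-s}) |K|` satisfies `HyperplaneBound (C ℓ s / √ε)`;

(3) if `K ⊆ B_R` and `|B_R| ≤ Dⁿ |K|`, then for `0 < ε ≤ 1` some symmetric convex body `B` with
`B ⊆ K ⊆ (1+ε)B` satisfies `HyperplaneBound (C D / √ε)`;

(4) if `∫_K |x|² ≤ ℓ² n |K|^(1+2/n)`, `ℓ ≥ 1`, and `|K ∩ B_R| ≤ e^{-m} |K|`, `2 ≤ m ≤ n`, then `K ∩ B_R`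
satisfies `HyperplaneBound (C ℓ √(n/m))`. -/
theorem result : ∃ C : ℝ, 0 < C ∧ ∀ (n : ℕ) (K : Set (Euc n)), 1 ≤ n → Body K →
    EllipsoidBound C K ∧ ApproximationBound C K ∧ VolumeRatioBound C K ∧ TruncationBound C K := by
  obtain ⟨C₁, h₁, H₁⟩ := truncations
  obtain ⟨C₂, h₂, H₂⟩ := approximation
  obtain ⟨C₃, h₃, H₃⟩ := volume_ratio
  obtain ⟨C₄, h₄, H₄⟩ := ellipsoids
  refine ⟨max (max C₁ C₂) (max C₃ C₄), lt_max_of_lt_left (lt_max_of_lt_left h₁),
    fun n K hn hK => ⟨?_, ?_, ?_, ?_⟩⟩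
  · intro m hm hmn
    obtain ⟨A, q1, q2, q3⟩ := H₄ n K m hK hm hmn
    refine ⟨A, fun T => (q1 T).mono ?_, q2, fun h ℓ B hℓ => q3 ℓ B hℓ h⟩
    have : C₄ ≤ max (max C₁ C₂) (max C₃ C₄) := (le_max_right _ _).trans (le_max_right _ _)
    gcongr
  · intro ℓ ε s hℓ hS hε hε1 hs
    obtain ⟨B, q1, q2, q3, q4⟩ := H₂ n K ℓ ε s hn hK (by linarith) hS hε hε1 hs
    refine ⟨B, q1, q2, q3, q4.mono ?_⟩
    have : C₂ ≤ max (max C₁ C₂) (max C₃ C₄) := (le_max_right _ _).trans (le_max_left _ _)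
    gcongr
  · intro D R ε hD hR hε hε1 hKR hv
    obtain ⟨B, q1, q2, q3, q4⟩ := H₃ n K D R ε hn hK hD hR hε hε1 hKR hv
    refine ⟨B, q1, q2, q3, q4.mono ?_⟩
    have : C₃ ≤ max (max C₁ C₂) (max C₃ C₄) := (le_max_left _ _).trans (le_max_right _ _)
    gcongr
  · intro ℓ m R hℓ hS hm hmn hR hv
    refine (H₁ n K ℓ m R hK hℓ hS hm hmn hR hv).mono ?_
    have : C₁ ≤ max (max C₁ C₂) (max C₃ C₄) := (le_max_left _ _).trans (le_max_left _ _)
    gcongr

/-- **Bodies with almost the same volume radius** (not part of the hand-in, a case of part (1)). If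
`n ≥ 9 log (10 ℓ) / ε` and a linear image of `K` of the same volume has the property `SecondMoment ℓ`, then
there is an ellipsoid `ℰ` with `|K ∩ ℰ| ≥ e^{-εn} |K|` such that all linear images of `K ∩ ℰ` satisfy
`HyperplaneBound (C √(log (10 ℓ) / ε))`. -/
theorem volume_radius : ∃ C : ℝ, 0 < C ∧ ∀ (n : ℕ) (K : Set (Euc n)) (ℓ ε : ℝ)
    (B : Euc n ≃ₗ[ℝ] Euc n), Body K → 1 ≤ ℓ → 0 < ε → ε ≤ 1 → 9 * Real.log (10 * ℓ) / ε ≤ n →
    |LinearMap.det (B : Euc n →ₗ[ℝ] Euc n)| = 1 → SecondMoment ℓ (B '' K) →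
    ∃ A : Euc n ≃ₗ[ℝ] Euc n, vol K ≤ Real.exp (ε * n) * vol (K ∩ ellipsoid A 1) ∧
    ∀ T : Euc n ≃ₗ[ℝ] Euc n,
      HyperplaneBound (C * Real.sqrt (Real.log (10 * ℓ) / ε)) (T '' (K ∩ ellipsoid A 1)) := by
  obtain ⟨C, hC, H⟩ := ellipsoids
  refine ⟨C * 2, by positivity, fun n K ℓ ε B hK hℓ hε hε1 hn hB hS => ?_⟩
  obtain ⟨a, ha⟩ : ∃ a, a = Real.log (10 * ℓ) := ⟨_, rfl⟩
  have ha2 : 2 ≤ a := by
    have h1 : Real.log 10 ≤ a := by
      rw [ha]
      exact Real.log_le_log (by norm_num) (by linarith)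
    have h2 : Real.log 8 ≤ Real.log 10 := Real.log_le_log (by norm_num) (by norm_num)
    have h3 : Real.log 8 = 3 * Real.log 2 := by
      rw [show (8 : ℝ) = 2 ^ 3 by norm_num, Real.log_pow]
      norm_num
    have h4 := Real.log_two_gt_d9
    linarith
  rw [← ha] at hn ⊢
  have ha0 : 0 < a := by linarith
  have hn' : 9 * a ≤ n * ε := by rwa [div_le_iff₀ hε] at hn
  have hn0 : (0 : ℝ) < n := by
    by_contra hcon
    push Not at hcon
    nlinarith
  obtain ⟨m, hm⟩ : ∃ m, m = ε * n / (4 * a) := ⟨_, rfl⟩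
  have hm1 : 1 ≤ m := by
    rw [hm, le_div_iff₀ (by positivity)]
    linarith
  have hm2 : 2 * m ≤ n := by
    rw [hm, ← mul_div_assoc, div_le_iff₀ (by positivity)]
    nlinarith
  have hm0 : 0 < m := by linarith
  have hmn : m < n := by linarith
  obtain ⟨A, h1, -, h3⟩ := H n K m hK hm1 hmn
  refine ⟨A, ?_, fun T => (h1 T).mono (le_of_eq ?_)⟩
  · refine (h3 ℓ B hℓ hm2 hB hS).trans (mul_le_mul_of_nonneg_right ?_ ENNReal.toReal_nonneg)
    have e1 : (10 * ℓ) ^ (2 * m) = Real.exp (ε * n / 2) := by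
      rw [Real.rpow_def_of_pos (by linarith), ← ha, hm]
      congr 1
      field_simp
      norm_num
    have e2 : (64 : ℝ) ≤ Real.exp (ε * n / 2) := by
      have h4 : Real.log 64 = 6 * Real.log 2 := by
        rw [show (64 : ℝ) = 2 ^ 6 by norm_num, Real.log_pow]
        norm_num
      have h5 := Real.log_two_lt_d9
      rw [← Real.log_le_iff_le_exp (by norm_num), h4]
      linarith
    rw [e1]
    calc 64 * Real.exp (ε * n / 2) ≤ Real.exp (ε * n / 2) * Real.exp (ε * n / 2) :=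
          mul_le_mul_of_nonneg_right e2 (Real.exp_pos _).le
      _ = Real.exp (ε * n) := by
          rw [← Real.exp_add]
          congr 1
          ring
  · have e3 : (n : ℝ) / m = 2 ^ 2 * (a / ε) := by
      rw [hm]
      field_simp
      norm_num
    rw [e3, Real.sqrt_mul (by norm_num), Real.sqrt_sq (by norm_num)]
    ring

/-- even functions `V` such that `V - a |x|²` is convex -/
structure UniformlyConvex {n : ℕ} (a : ℝ) (V : Euc n → ℝ) : Prop where
  even : ∀ x, V (-x) = V x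
  convex : ConvexOn ℝ univ fun x => V x - a * ‖x‖ ^ 2

/-- **Level sets of uniformly convex functions on arbitrary bodies** (not part of the hand-in). Let
`Ω = K ∩ {V < t}` and `|K ∩ {V ≤ t - σ}| ≤ e^{-qσ} |Ω|`, `2 q σ ≤ 1`. If `∫_Ω ⟪x, θ⟫² ≥ v |Ω|` for some
unit vector `θ`, then `Ω` satisfies `HyperplaneBound (C / √(q a v))`; if this is the case for all unit
vectors, then so do all linear images of `Ω`. -/
theorem level_sets : ∃ C : ℝ, 0 < C ∧ ∀ (q σ a v t : ℝ), 0 < q → 0 < σ → 2 * q * σ ≤ 1 → 0 < a →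
    0 < v → ∀ (n : ℕ) (K : Set (Euc n)) (V : Euc n → ℝ), 1 ≤ n → Body K → UniformlyConvex a V →
    (K ∩ {x | V x < t}).Nonempty →
    vol (K ∩ {x | V x ≤ t - σ}) ≤ Real.exp (-(q * σ)) * vol (K ∩ {x | V x < t}) →
    ((∃ θ : Euc n, ‖θ‖ = 1 ∧ v * vol (K ∩ {x | V x < t}) ≤
        ∫ x in K ∩ {x | V x < t}, ⟪x, θ⟫_ℝ ^ 2) →
      HyperplaneBound (C / Real.sqrt (q * a * v)) (K ∩ {x | V x < t})) ∧
    ((∀ θ : Euc n, ‖θ‖ = 1 → v * vol (K ∩ {x | V x < t}) ≤
        ∫ x in K ∩ {x | V x < t}, ⟪x, θ⟫_ℝ ^ 2) → ∀ T : Euc n ≃ₗ[ℝ] Euc n,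
      HyperplaneBound (C / Real.sqrt (q * a * v)) (T '' (K ∩ {x | V x < t}))) := by
  obtain ⟨C, hC, H⟩ := Pool.Agent.V7H69.IK.level_open
  refine ⟨C, hC, fun q σ a v t hq hσ hqσ ha hv n K V hn hK hV hne h => ?_⟩
  obtain ⟨h1, h2⟩ := H q σ a v t hq hσ hqσ ha hv n K V hn hK.isOpen hK.convex hK.bounded hK.symm
    ⟨hV.even, hV.convex⟩ hne h
  exact ⟨fun hθ => bound_of (h1 hθ), fun hθ T => bound_of (h2 hθ T)⟩

end Pool.Agent.Results.MP_dc1397_gt.IsomorphicFormsH69
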