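import Pool.Agent.Results.MP_dc1397_gt.LargeSections
import Pool.Agent.V7H40.TR.Fin
import Pool.Agent.V7H40.TR.Mat

/-!
# The hyperplane conjecture of KLS for Jacobi matrices and for matrices supported by trees

For a tree with `n + 1` vertices let `ball` be the unit ball of the operator norm in the space
(of dimension `2 n + 1`) of real symmetric matrices whose entries vanish outside of the diagonal and
the edges of the tree. For a path these are the Jacobi (tridiagonal) matrices of norm at most one.

Theorem. For every `D` there is a constant `A` such that for all trees with at most `D` children at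
each vertex the uniform probability measure on `ball` and all its linear images satisfy the
Poincare inequality with the constant `A` times the largest variance of a marginal (`Poincare`; this
is the conjecture of Kannan, Lovasz and Simonovits in its usual equivalent form). The same holds for
all products of such bodies (`Blocks`). So Q1 holds for all symmetric bodies of the class
`TreeClass`, which contains these bodies and is closed under images under affine maps with small
kernels, under sections of small codimension through the barycentre (for instance: the matrices in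
`ball` which satisfy given linear equations, boundedly many), large sections of small codimension,
and under the converse operations (`extend`: all convex bodies which have such a body as a large
section; `lift`). The constant depends on `D`, on the bound `s` for the (co)dimensions and on the
number `h` of operations, but not on the dimension.

The bodies `ball` have few symmetries: changes of signs and automorphisms of the tree.

Method. Elimination of the leaves (Schur complements) gives a parametrisation of the symmetric
matrices of norm less than one which are supported by the tree by a product of intervals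
`(-π/2, π/2)`: if `τ_u` are the angles of the vertices and `φ_c` the angles of the edges from `c` to
the parent of `c`, if `r_u` is the product of the `cos φ_c` over all children `c` of `u` and `r'_c`
that over the siblings of `c` which come before `c`, and `s_c = r'_c sin φ_c`, then the diagonal
entry at `u` is `r_u² sin τ_u - ∑ s_c² sin τ_c` (sum over the children `c` of `u`) and the entry at
the edge from `c` to its parent is `r_c cos τ_c s_c`. (For the path these are the relations of
Geronimus between Jacobi matrices with spectrum in `[-1, 1]` and Verblunsky coefficients.) The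
crucial points are: (1) the Jacobian is a product of powers of the cosines of the single angles, so the
angles are independent and have log-concave densities; (2) the map from the angles to the matrices
is Lipschitz, with a constant which depends only on `D`; (3) the covariance matrix is bounded below by
a constant which depends only on `D`: every linear functional is a sum of one function for each angle
which is odd in this angle and even in the others, so these are orthogonal. So the Poincare
inequality for products of log-concave densities on the line carries over. The closure properties are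
those of `LargeSections`.
-/

set_option autoImplicit false

namespace Pool.Agent.Results.MP_dc1397_gt.TreeMatricesH40

open MeasureTheory Set
open scoped ENNReal InnerProductSpace
open Pool.Agent.Results.MP_dc1397_gt.LargeSections (Euc unif Body fibre Sectional HyperplaneBound
  WeakPoincare)

/-- A tree with the vertices `0, …, n`: the parent of `i < n` is `p i > i`, so that `n` is the root.
Every vertex has at most `D` children. -/
structure Tree (D n : ℕ) (p : ℕ → ℕ) : Prop where
  parent : ∀ i < n, i < p i ∧ p i ≤ n
  deg : ∀ u ≤ n, ((Finset.range n).filter fun c => p c = u).card ≤ D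

/-- the coordinates of `x`, followed by zeros -/
noncomputable def coord {N : ℕ} (x : Euc N) (k : ℕ) : ℝ := if h : k < N then x ⟨k, h⟩ else 0

/-- The symmetric matrix with the diagonal entries `x_0, x_2, …, x_(2n)` and the entries `x_(2i+1)` at
the edges `{i, p i}`, `i < n`, of the tree; all the other entries vanish. -/
noncomputable def matrix (p : ℕ → ℕ) (n : ℕ) (x : Euc (2 * n + 1)) :
    Matrix (Fin (n + 1)) (Fin (n + 1)) ℝ := fun i j =>
  if (i : ℕ) = j then coord x (2 * i) else if (i : ℕ) < n ∧ p i = j then coord x (2 * i + 1)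
  else if (j : ℕ) < n ∧ p j = i then coord x (2 * j + 1) else 0

/-- the matrices `M` supported by the tree of operator norm at most one: `|⟨M v, v⟩| ≤ ‖v‖²` for all
`v` -/
def ball (p : ℕ → ℕ) (n : ℕ) : Set (Euc (2 * n + 1)) :=
  {x | ∀ v : Fin (n + 1) → ℝ, |v ⬝ᵥ (matrix p n x).mulVec v| ≤ v ⬝ᵥ v}

/-- products of the bodies `ball` -/
inductive Blocks (D : ℕ) : ∀ {N : ℕ}, Set (Euc N) → Prop
  | tree {n : ℕ} {p : ℕ → ℕ} : Tree D n p → Blocks D (ball p n)
  | prod {a b N : ℕ} (e : (Euc a × Euc b) ≃ₗ[ℝ] Euc N) {K : Set (Euc a)} {L : Set (Euc b)} :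
      Blocks D K → Blocks D L → Blocks D (e '' (K ×ˢ L))

/-- The Poincare inequalities `Var v(P x) ≤ A σ E ‖∇ v(P x)‖²` for all linear images `P x` of `x` (of
law `μ`), all bounds `σ` for the variances of the marginals of `P x` in directions of length one, and
all bounded `C¹` functions `v` with bounded gradient. For `P = id` and the uniform measure of a convex body
this is the conjecture of Kannan, Lovasz and Simonovits if `A` is a universal constant. -/
def Poincare (A : ℝ) {M : ℕ} (μ : Measure (Euc M)) : Prop :=
  ∀ (k : ℕ) (P : Euc M →ₗ[ℝ] Euc k) (σ : ℝ), 0 < σ →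
  (∀ θ : Euc k, ‖θ‖ = 1 → ProbabilityTheory.variance (fun x => ⟪P x, θ⟫_ℝ) μ ≤ σ) →
  ∀ (v : Euc k → ℝ) (C : ℝ), ContDiff ℝ 1 v → (∀ y, |v y| ≤ C) → (∀ y, ‖fderiv ℝ v y‖ ≤ C) →
  ProbabilityTheory.variance (fun x => v (P x)) μ ≤ A * σ * ∫ x, ‖fderiv ℝ v (P x)‖ ^ 2 ∂μ

/-- The class of bodies. It contains the products of the bodies `ball` (`base`). Bodies of depth `h + 1` are
obtained from those of depth `h` by
* images under affine maps with kernels of dimension at most `s` (`image`), and adding at most `s`
  dimensions (`lift`: all convex bodies `K` with a linear image, under a map with a kernel of dimension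
  at most `s`, of depth `h`);
* `large`: the sections of codimension `j ≤ s` such that the parallel sections are at most `s` times
  larger;
* `extend`: all convex bodies `K ⊂ ℝ^N × ℝ^j`, `j ≤ s`, which have one section parallel to `ℝ^N` of depth
  `h` such that the parallel sections are at most `s` times larger;
* `central`: the sections of codimension `j ≤ s` through the barycentre. -/
inductive TreeClass (D s : ℕ) : ℕ → ∀ {n : ℕ}, Set (Euc n) → Prop
  | base {n : ℕ} {K : Set (Euc n)} : Blocks D K → TreeClass D s 0 K
  | up {h n : ℕ} {K : Set (Euc n)} : TreeClass D s h K → TreeClass D s (h + 1) K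
  | image {h m n : ℕ} {K : Set (Euc m)} (T : Euc m →ₗ[ℝ] Euc n) (w : Euc n) : m ≤ n + s →
      Function.Surjective T → TreeClass D s h K →
      TreeClass D s (h + 1) ((fun x => w + T x) '' K)
  | lift {h m n : ℕ} {K : Set (Euc m)} (T : Euc m →ₗ[ℝ] Euc n) : m ≤ n + s →
      Function.Surjective T → Body K → TreeClass D s h (T '' K) → TreeClass D s (h + 1) K
  | large {h N j n : ℕ} {K : Set (Euc n)} (e : (Euc N × Euc j) ≃ₗ[ℝ] Euc n) (t : Euc j) : j ≤ s →
      TreeClass D s h K → (∀ t', volume (fibre e K t') ≤ s * volume (fibre e K t)) →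
      TreeClass D s (h + 1) (fibre e K t)
  | extend {h N j n : ℕ} {K : Set (Euc n)} (e : (Euc N × Euc j) ≃ₗ[ℝ] Euc n) (t : Euc j) : j ≤ s →
      Body K → (∀ t', volume (fibre e K t') ≤ s * volume (fibre e K t)) →
      TreeClass D s h (fibre e K t) → TreeClass D s (h + 1) K
  | central {h N j n : ℕ} {K : Set (Euc n)} (e : (Euc N × Euc j) ≃ₗ[ℝ] Euc n) (t : Euc j) : j ≤ s →
      TreeClass D s h K → (∀ θ : Euc j, ∫ z, ⟪(e.symm z).2, θ⟫_ℝ ∂(unif K) = ⟪t, θ⟫_ℝ) →
      TreeClass D s (h + 1) (fibre e K t)

/-! ### the bodies -/

open Pool.Agent.V7H40.TR (Kb QF N2 ext mm)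

/-- the quadratic form of the matrix -/
theorem quad {p : ℕ → ℕ} {n : ℕ} (hp : ∀ i < n, i < p i ∧ p i ≤ n) (x : Euc (2 * n + 1))
    (V : ℕ → ℝ) : (fun i : Fin (n + 1) => V i) ⬝ᵥ (matrix p n x).mulVec (fun i => V i) =
      QF p n (ext x) V := by
  rw [← Pool.Agent.V7H40.TR.sum_mm hp, ← Fin.sum_univ_eq_sum_range
    (fun i => ∑ j ∈ Finset.range (n + 1), V i * mm p n (ext x) i j * V j)]
  unfold dotProduct
  refine Finset.sum_congr rfl fun i _ => ?_
  rw [← Fin.sum_univ_eq_sum_range (fun j => V i * mm p n (ext x) i j * V j)]
  unfold Matrix.mulVec dotProduct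
  rw [Finset.mul_sum]
  refine Finset.sum_congr rfl fun j _ => ?_
  change V i * (mm p n (ext x) i j * V j) = _
  ring

theorem quad_one {n : ℕ} (V : ℕ → ℝ) :
    (fun i : Fin (n + 1) => V i) ⬝ᵥ (fun i : Fin (n + 1) => V i) = N2 n V := by
  unfold N2
  rw [← Fin.sum_univ_eq_sum_range (fun i => V i ^ 2)]
  unfold dotProduct
  exact Finset.sum_congr rfl fun i _ => by ring

theorem ball_eq {p : ℕ → ℕ} {n : ℕ} (hp : ∀ i < n, i < p i ∧ p i ≤ n) : ball p n = Kb p n := by
  ext x
  constructor
  · intro h V
    have h1 := h fun i => V i
    rwa [quad hp, quad_one] at h1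
  · intro h v
    obtain ⟨V, hV⟩ : ∃ V : ℕ → ℝ, ∀ i : Fin (n + 1), v i = V i :=
      ⟨fun k => if h : k < n + 1 then v ⟨k, h⟩ else 0, fun i => by simp [i.2]⟩
    have h1 : v = fun i : Fin (n + 1) => V i := funext hV
    rw [h1, quad hp, quad_one]
    exact h V

theorem body_prod {a b N : ℕ} (e : (Euc a × Euc b) ≃ₗ[ℝ] Euc N) {K : Set (Euc a)}
    {L : Set (Euc b)} (hK : Body K) (hL : Body L) : Body (e '' (K ×ˢ L)) := by
  have hc : Continuous e := LinearMap.continuous_of_finiteDimensional e.toLinearMap
  refine ⟨(hK.comp.prod hL.comp).image hc, (hK.conv.prod hL.conv).linear_image e.toLinearMap, ?_⟩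
  obtain ⟨x, hx⟩ := hK.int
  obtain ⟨y, hy⟩ := hL.int
  have ho : IsOpenMap e := e.toContinuousLinearEquiv.isOpenMap
  refine ⟨e (x, y), ?_⟩
  refine interior_mono (image_mono ?_) ((ho _ (isOpen_interior.prod isOpen_interior)).interior_eq.symm ▸
    mem_image_of_mem e (mk_mem_prod hx hy))
  exact prod_mono interior_subset interior_subset

open Pool.Agent.R751.MB (AP)
open Pool.Agent.V7H40.TR (iW)

theorem ap_blocks (D : ℕ) : ∃ A : ℝ, 0 < A ∧ ∀ (N : ℕ) (K : Set (Euc N)), Blocks D K →
    Body K ∧ AP A (iW K) := by
  obtain ⟨A, hA, H⟩ := Pool.Agent.V7H40.TR.ap_tree D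
  refine ⟨A, hA, fun N K h => ?_⟩
  induction h with
  | tree ht =>
    rw [ball_eq ht.parent]
    exact ⟨⟨Pool.Agent.V7H40.TR.Kb_comp ht.parent, Pool.Agent.V7H40.TR.Kb_conv,
      Pool.Agent.V7H40.TR.Kb_int ht.parent⟩, H _ _ ht.parent ht.deg⟩
  | @prod a b N e K L _ _ ih ih' =>
    refine ⟨body_prod e ih.1 ih'.1, ?_⟩
    have h1 := Pool.Agent.R751.MB.ten (Fin a) (Fin b) (Fin N) A e (iW K) (iW L) hA.le ih.2 ih'.2
    have h2 : iW (e '' (K ×ˢ L)) = fun z => iW K (e.symm z).1 * iW L (e.symm z).2 := by
      funext z
      obtain ⟨y, rfl⟩ := e.surjective z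
      rw [LinearEquiv.symm_apply_apply]
      unfold iW
      by_cases h3 : y.1 ∈ K
      · by_cases h4 : y.2 ∈ L
        · rw [indicator_of_mem h3, indicator_of_mem h4,
            indicator_of_mem (mem_image_of_mem e (mk_mem_prod h3 h4)), mul_one]
        · rw [indicator_of_notMem h4, mul_zero, indicator_of_notMem]
          rintro ⟨y', hy', hy⟩
          rw [e.injective hy] at hy'
          exact h4 hy'.2
      · rw [indicator_of_notMem h3, zero_mul, indicator_of_notMem]
        rintro ⟨y', hy', hy⟩
        rw [e.injective hy] at hy'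
        exact h3 hy'.1
    rw [h2]
    exact h1

/-- the Poincare inequality -/
theorem poincare_blocks (D : ℕ) : ∃ A : ℝ, 0 < A ∧ ∀ (N : ℕ) (K : Set (Euc N)), Blocks D K →
    Body K ∧ Poincare A (unif K) := by
  obtain ⟨A, hA, H⟩ := ap_blocks D
  refine ⟨A, hA, fun N K h => ?_⟩
  obtain ⟨h1, h2⟩ := H N K h
  refine ⟨h1, fun k P σ hσ hP v C hv hb hl => ?_⟩
  have h3 : volume K ≠ 0 := by
    obtain ⟨x, hx⟩ := h1.int
    exact ((isOpen_interior.measure_pos volume ⟨x, hx⟩).trans_le
      (measure_mono interior_subset)).ne'
  exact Pool.Agent.V7H40.TR.poi_un hA.le h1.comp h3 h2 P hσ hP hv hb hl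

theorem weak_of {A : ℝ} {M : ℕ} {μ : Measure (Euc M)} (h : Poincare A μ) :
    WeakPoincare (fun _ => A) μ := by
  intro δ hδ k P σ hσ hP v C hv hb hl
  have h1 := h k P σ hσ hP v (max 1 C) hv (fun y => (hb y).trans (le_max_left _ _))
    fun y => (hl y).trans (le_max_right _ _)
  linarith

theorem sectional_of {D s h n : ℕ} {A : ℝ} (H : ∀ (N : ℕ) (K : Set (Euc N)), Blocks D K →
    Body K ∧ Poincare A (unif K)) {K : Set (Euc n)} (hK : TreeClass D s h K) :
    Sectional (fun _ => A) s h K := by
  induction hK with
  | base hb => exact .base (H _ _ hb).1 (weak_of (H _ _ hb).2)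
  | up _ ih => exact .up ih
  | image T w hm hT _ ih => exact .image T w hm hT ih
  | lift T hm hT hb _ ih => exact .lift T hm hT hb ih
  | large e t hj _ ht ih => exact .large e t hj ih ht
  | extend e t hj hb ht _ ih => exact .extend e t hj hb ht ih
  | central e t hj _ ht ih => exact .central e t hj ih ht

/-- **The conjecture of Kannan, Lovasz and Simonovits for matrices supported by trees.** For all
`D` there is a constant `A` such that the uniform measures on the unit balls `ball` of the operator norm in
the spaces of symmetric matrices supported by the trees with at most `D` children at each vertex,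
and on the products of these bodies, satisfy `Poincare A`; and for all `s` and `h` there is a constant
`C > 0` such that for all `N ≥ 1` and all symmetric bodies `K ⊂ ℝ^N` of the class `TreeClass D s h`, the
interior `Ω` of `K` has a central hyperplane section `Ω ∩ a^⊥` with `H_{N-1}(Ω ∩ a^⊥) ≤ C P(E; Ω)` for
every measurable `E ⊆ Ω` with `|E| = |Ω| / 2`. -/
theorem result : ∀ D : ℕ, ∃ A : ℝ, 0 < A ∧
    (∀ (N : ℕ) (K : Set (Euc N)), Blocks D K → Body K ∧ Poincare A (unif K)) ∧
    ∀ s h : ℕ, ∃ C : ℝ, 0 < C ∧ ∀ (N : ℕ) (K : Set (Euc N)), 1 ≤ N → TreeClass D s h K →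
      (∀ x ∈ K, -x ∈ K) → HyperplaneBound C (interior K) := by
  intro D
  obtain ⟨A, hA, H⟩ := poincare_blocks D
  refine ⟨A, hA, H, fun s h => ?_⟩
  obtain ⟨C, hC, H'⟩ := Pool.Agent.Results.MP_dc1397_gt.LargeSections.result (fun _ => A) s h
  exact ⟨C, hC, fun N K hN hK hs => H' N K hN (sectional_of H hK) hs⟩

/-- The bodies `ball` themselves. -/
theorem hyperplane_tree (D : ℕ) : ∃ C : ℝ, 0 < C ∧ ∀ (n : ℕ) (p : ℕ → ℕ), Tree D n p →
    HyperplaneBound C (interior (ball p n)) := by
  obtain ⟨A, -, -, H⟩ := result D
  obtain ⟨C, hC, H'⟩ := H 0 0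
  refine ⟨C, hC, fun n p hp => H' _ _ (by omega) (.base (.tree hp)) fun x hx => ?_⟩
  rw [ball_eq hp.parent] at hx ⊢
  exact Pool.Agent.V7H40.TR.Kb_neg hx

/-- Jacobi matrices: an absolute constant. -/
theorem hyperplane_jacobi : ∃ C : ℝ, 0 < C ∧ ∀ n : ℕ,
    HyperplaneBound C (interior (ball (fun i => i + 1) n)) := by
  obtain ⟨C, hC, H⟩ := hyperplane_tree 1
  refine ⟨C, hC, fun n => H n _ ⟨fun i hi => ⟨by omega, by omega⟩, fun u _ => ?_⟩⟩
  refine Finset.card_le_one.2 fun a ha b hb => ?_
  rw [Finset.mem_filter] at ha hb
  omega

end Pool.Agent.Results.MP_dc1397_gt.TreeMatricesH40
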